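import Pool.Agent.helper73.AD.GW0

/-!
Calculus of curves of two by two matrices (project ad, Wolpert part).
-/

open scoped MatrixGroups LinearAlgebra.Projectivization BigOperators
open Matrix UpperHalfPlane

namespace AdSBend

namespace HasD

variable {f g : ℝ → M2} {f' g' : M2}

theorem add (hf : HasD f f') (hg : HasD g g') : HasD (fun s => f s + g s) (f' + g') :=
  fun i j => (hf i j).add (hg i j)

theorem sub (hf : HasD f f') (hg : HasD g g') : HasD (fun s => f s - g s) (f' - g') :=
  fun i j => (hf i j).sub (hg i j)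

theorem neg (hf : HasD f f') : HasD (fun s => -f s) (-f') := fun i j => (hf i j).neg

theorem const (X : M2) : HasD (fun _ => X) 0 := fun i j => by
  simpa using hasDerivAt_const (0 : ℝ) (X i j)

theorem mul (hf : HasD f f') (hg : HasD g g') :
    HasD (fun s => f s * g s) (f' * g 0 + f 0 * g') := fun i j => by
  have h : (fun s => (f s * g s) i j) = fun s => f s i 0 * g s 0 j + f s i 1 * g s 1 j := by
    funext s; simp [Matrix.mul_apply, Fin.sum_univ_two]
  rw [h]
  have h1 := ((hf i 0).mul (hg 0 j)).add ((hf i 1).mul (hg 1 j))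
  refine h1.congr_deriv ?_
  simp [Matrix.mul_apply, Fin.sum_univ_two]
  ring

theorem smul {x : ℝ → ℝ} {x' : ℝ} (hx : HasDerivAt x x' 0) (hf : HasD f f') :
    HasD (fun s => x s • f s) (x' • f 0 + x 0 • f') := fun i j => by
  have h1 := hx.mul (hf i j)
  exact h1

theorem const_smul (x : ℝ) (hf : HasD f f') : HasD (fun s => x • f s) (x • f') := fun i j => by
  simpa using (hf i j).const_mul x

theorem unique (hf : HasD f f') (hg : HasD f g') : f' = g' := by
  ext i j
  exact (hf i j).unique (hg i j)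

theorem trace (hf : HasD f f') : HasDerivAt (fun s => (f s).trace) f'.trace 0 := by
  have h := (hf 0 0).add (hf 1 1)
  have h1 : (fun s => (f s).trace) = (fun s => f s 0 0) + fun s => f s 1 1 := by
    funext s; simp [Matrix.trace_fin_two]
  rw [h1, Matrix.trace_fin_two]
  exact h

theorem ip (hf : HasD f f') (hg : HasD g g') :
    HasDerivAt (fun s => AdSBend.ip (f s) (g s)) (AdSBend.ip f' (g 0) + AdSBend.ip (f 0) g') 0 := by
  have h := (hf.mul hg).trace.div_const 2
  refine h.congr_deriv ?_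
  simp [AdSBend.ip, Matrix.trace_add, add_div]

theorem inv_aux (p q r t : ℝ) (X : M2) (h0 : p * t - q * r = 1)
    (hd : X 0 0 * t + p * X 1 1 - (X 0 1 * r + q * X 1 0) = 0) :
    -(!![t, -q; -r, p] * X * !![t, -q; -r, p]) = !![X 1 1, -X 0 1; -X 1 0, X 0 0] := by
  rw [Matrix.eta_fin_two X, Matrix.mul_fin_two, Matrix.mul_fin_two]
  ext i j
  fin_cases i <;> fin_cases j <;> simp
  · linear_combination -t * hd + X 1 1 * h0
  · linear_combination q * hd - X 0 1 * h0
  · linear_combination r * hd - X 1 0 * h0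
  · linear_combination -p * hd + X 0 0 * h0

/-- derivative of the inverse of a curve in SL(2, R) -/
theorem inv {g : ℝ → SL(2, ℝ)} {g' : M2} (hg : HasD (fun s => (g s).1) g') :
    HasD (fun s => ((g s)⁻¹).1) (-(((g 0)⁻¹).1 * g' * ((g 0)⁻¹).1)) := by
  have hadj : ∀ s, ((g s)⁻¹).1 = !![(g s).1 1 1, -(g s).1 0 1; -(g s).1 1 0, (g s).1 0 0] := by
    intro s
    rw [Matrix.SpecialLinearGroup.coe_inv, Matrix.adjugate_fin_two]
  have hdet : ∀ s, (g s).1 0 0 * (g s).1 1 1 - (g s).1 0 1 * (g s).1 1 0 = 1 := by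
    intro s
    have := (g s).2
    rwa [Matrix.det_fin_two] at this
  have hd' : g' 0 0 * (g 0).1 1 1 + (g 0).1 0 0 * g' 1 1
      - (g' 0 1 * (g 0).1 1 0 + (g 0).1 0 1 * g' 1 0) = 0 := by
    have h1 := ((hg 0 0).mul (hg 1 1)).sub ((hg 0 1).mul (hg 1 0))
    have h2 : HasDerivAt (fun s => (g s).1 0 0 * (g s).1 1 1 - (g s).1 0 1 * (g s).1 1 0) 0 0 := by
      have : (fun s => (g s).1 0 0 * (g s).1 1 1 - (g s).1 0 1 * (g s).1 1 0) = fun _ => 1 := by
        funext s; exact hdet s
      rw [this]; exact hasDerivAt_const _ _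
    exact h1.unique h2
  have h0 := hdet 0
  have hE : -(((g 0)⁻¹).1 * g' * ((g 0)⁻¹).1) =
      !![g' 1 1, -g' 0 1; -g' 1 0, g' 0 0] := by
    rw [hadj]
    exact inv_aux _ _ _ _ g' h0 hd'
  rw [hE]
  intro i j
  simp only [hadj]
  fin_cases i <;> fin_cases j
  · exact hg 1 1
  · exact (hg 0 1).neg
  · exact (hg 1 0).neg
  · exact hg 0 0

end HasD

end AdSBend
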