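import Pool.Agent.helper73.AD.Stmt

/-!
Basic lemmas for the analytic core (project ad).
-/

namespace Pool.Agent.helper73.AD

open scoped BigOperators Topology

variable {J K : Type} [Fintype J] [DecidableEq J] [Fintype K] [DecidableEq K]

omit [DecidableEq J] in
theorem om_add_left (x y z : PS J) : om (x + y) z = om x z + om y z := by
  simp only [om, ← Finset.sum_add_distrib, Prod.fst_add, Prod.snd_add, Pi.add_apply]
  exact Finset.sum_congr rfl fun j _ => by ring

omit [DecidableEq J] in
theorem om_add_right (x y z : PS J) : om x (y + z) = om x y + om x z := by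
  simp only [om, ← Finset.sum_add_distrib, Prod.fst_add, Prod.snd_add, Pi.add_apply]
  exact Finset.sum_congr rfl fun j _ => by ring

omit [DecidableEq J] in
theorem om_smul_left (c : ℝ) (x y : PS J) : om (c • x) y = c * om x y := by
  simp only [om, Finset.mul_sum, Prod.smul_fst, Prod.smul_snd, Pi.smul_apply, smul_eq_mul]
  exact Finset.sum_congr rfl fun j _ => by ring

omit [DecidableEq J] in
theorem om_smul_right (c : ℝ) (x y : PS J) : om x (c • y) = c * om x y := by
  simp only [om, Finset.mul_sum, Prod.smul_fst, Prod.smul_snd, Pi.smul_apply, smul_eq_mul]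
  exact Finset.sum_congr rfl fun j _ => by ring

omit [DecidableEq J] in
theorem om_neg_left (x y : PS J) : om (-x) y = -om x y := by
  have := om_smul_left (-1) x y; simpa using this

omit [DecidableEq J] in
theorem om_neg_right (x y : PS J) : om x (-y) = -om x y := by
  have := om_smul_right (-1) x y; simpa using this

omit [DecidableEq J] in
theorem om_sub_left (x y z : PS J) : om (x - y) z = om x z - om y z := by
  rw [sub_eq_add_neg, om_add_left, om_neg_left]; ring

omit [DecidableEq J] in
theorem om_sub_right (x y z : PS J) : om x (y - z) = om x y - om x z := by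
  rw [sub_eq_add_neg, om_add_right, om_neg_right]; ring

omit [DecidableEq J] in
@[simp] theorem om_zero_left (x : PS J) : om 0 x = 0 := by simp [om]

omit [DecidableEq J] in
@[simp] theorem om_zero_right (x : PS J) : om x 0 = 0 := by simp [om]

omit [DecidableEq J] in
theorem om_anti (x y : PS J) : om x y = -om y x := by
  simp only [om, ← Finset.sum_neg_distrib]
  exact Finset.sum_congr rfl fun j _ => by ring

omit [DecidableEq J] in
@[simp] theorem om_self (x : PS J) : om x x = 0 := by
  have := om_anti x x; linarith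

omit [DecidableEq J] [DecidableEq K] in
theorem om_sum_left (s : Finset K) (f : K → PS J) (y : PS J) :
    om (∑ k ∈ s, f k) y = ∑ k ∈ s, om (f k) y := by
  classical
  induction s using Finset.induction_on with
  | empty => simp
  | insert a s ha ih => rw [Finset.sum_insert ha, Finset.sum_insert ha, om_add_left, ih]

omit [DecidableEq J] [DecidableEq K] in
theorem om_sum_right (s : Finset K) (f : K → PS J) (y : PS J) :
    om y (∑ k ∈ s, f k) = ∑ k ∈ s, om y (f k) := by
  classical
  induction s using Finset.induction_on with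
  | empty => simp
  | insert a s ha ih => rw [Finset.sum_insert ha, Finset.sum_insert ha, om_add_right, ih]

omit [DecidableEq J] in
/-- the second argument, as a continuous linear functional -/
noncomputable def omL (x : PS J) : PS J →L[ℝ] ℝ :=
  LinearMap.toContinuousLinearMap
    { toFun := fun y => om x y
      map_add' := fun y z => om_add_right x y z
      map_smul' := fun c y => om_smul_right c x y }

omit [DecidableEq J] in
@[simp] theorem omL_apply (x y : PS J) : omL x y = om x y := rfl

omit [DecidableEq J] in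
theorem abs_fst_le (x : PS J) (j : J) : |x.1 j| ≤ ‖x‖ :=
  (norm_le_pi_norm x.1 j).trans (norm_fst_le x)

omit [DecidableEq J] in
theorem abs_snd_le (x : PS J) (j : J) : |x.2 j| ≤ ‖x‖ :=
  (norm_le_pi_norm x.2 j).trans (norm_snd_le x)

omit [DecidableEq J] in
theorem abs_om_le (x y : PS J) : |om x y| ≤ 2 * Fintype.card J * ‖x‖ * ‖y‖ := by
  unfold om
  refine (Finset.abs_sum_le_sum_abs _ _).trans ?_
  have h : ∀ j ∈ (Finset.univ : Finset J), |x.2 j * y.1 j - x.1 j * y.2 j| ≤ 2 * ‖x‖ * ‖y‖ := by
    intro j _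
    have h1 := abs_fst_le x j
    have h2 := abs_snd_le x j
    have h3 := abs_fst_le y j
    have h4 := abs_snd_le y j
    calc |x.2 j * y.1 j - x.1 j * y.2 j| ≤ |x.2 j * y.1 j| + |x.1 j * y.2 j| := abs_sub _ _
      _ = |x.2 j| * |y.1 j| + |x.1 j| * |y.2 j| := by rw [abs_mul, abs_mul]
      _ ≤ ‖x‖ * ‖y‖ + ‖x‖ * ‖y‖ := by gcongr
      _ = 2 * ‖x‖ * ‖y‖ := by ring
  refine (Finset.sum_le_sum h).trans ?_
  rw [Finset.sum_const, Finset.card_univ, nsmul_eq_mul]
  linarith

/-- decomposition in the standard basis -/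
theorem ps_eq_sum (y : PS J) :
    y = (∑ j, y.1 j • ((Pi.single j 1, 0) : PS J)) + ∑ j, y.2 j • ((0, Pi.single j 1) : PS J) := by
  ext j
  · simp [Prod.fst_sum, Finset.sum_apply, Pi.single_apply]
  · simp [Prod.snd_sum, Finset.sum_apply, Pi.single_apply]

/-- om (sg l) y = l y -/
theorem om_sg (l : PS J →L[ℝ] ℝ) (y : PS J) : om (sg l) y = l y := by
  conv_rhs => rw [ps_eq_sum y]
  rw [map_add, map_sum, map_sum, ← Finset.sum_add_distrib]
  unfold om sg
  refine Finset.sum_congr rfl fun j _ => ?_
  rw [map_smul, map_smul]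
  simp only [smul_eq_mul]
  ring

/-- nondegeneracy -/
theorem eq_zero_of_om (x : PS J) (h : ∀ y, om x y = 0) : x = 0 := by
  ext j
  · have := h (0, Pi.single j 1)
    simp [om, Pi.single_apply] at this
    simpa using this
  · have := h (Pi.single j 1, 0)
    simp [om, Pi.single_apply] at this
    simpa using this

theorem eq_of_om (x x' : PS J) (h : ∀ y, om x y = om x' y) : x = x' := by
  have : x - x' = 0 := eq_zero_of_om _ fun y => by rw [om_sub_left, h y, sub_self]
  exact sub_eq_zero.mp this

theorem sg_add (l m : PS J →L[ℝ] ℝ) : sg (l + m) = sg l + sg m :=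
  eq_of_om _ _ fun y => by rw [om_add_left, om_sg, om_sg, om_sg]; rfl

theorem sg_smul (c : ℝ) (l : PS J →L[ℝ] ℝ) : sg (c • l) = c • sg l :=
  eq_of_om _ _ fun y => by rw [om_smul_left, om_sg, om_sg]; rfl

/-- sg as a continuous linear map -/
noncomputable def sgL : (PS J →L[ℝ] ℝ) →L[ℝ] PS J :=
  LinearMap.toContinuousLinearMap
    { toFun := fun l => sg l
      map_add' := sg_add
      map_smul' := fun c l => sg_smul c l }

@[simp] theorem sgL_apply (l : PS J →L[ℝ] ℝ) : sgL l = sg l := rfl

theorem norm_basis_fst (j : J) : ‖((Pi.single j 1, 0) : PS J)‖ ≤ 1 := by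
  refine max_le ?_ (by simp)
  refine (pi_norm_le_iff_of_nonneg zero_le_one).mpr fun i => ?_
  by_cases h : i = j
  · subst h; simp
  · simp [Pi.single_apply, h]

theorem norm_basis_snd (j : J) : ‖((0, Pi.single j 1) : PS J)‖ ≤ 1 := by
  refine max_le (by simp) ?_
  refine (pi_norm_le_iff_of_nonneg zero_le_one).mpr fun i => ?_
  by_cases h : i = j
  · subst h; simp
  · simp [Pi.single_apply, h]

/-- a vector is bounded by its pairings with the standard basis -/
theorem norm_le_of_om (x : PS J) (c : ℝ) (hc : 0 ≤ c)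
    (h : ∀ y : PS J, ‖y‖ ≤ 1 → |om x y| ≤ c) : ‖x‖ ≤ c := by
  refine max_le ?_ ?_
  · refine (pi_norm_le_iff_of_nonneg hc).mpr fun j => ?_
    have := h (0, Pi.single j 1) (norm_basis_snd j)
    simpa [om, Pi.single_apply] using this
  · refine (pi_norm_le_iff_of_nonneg hc).mpr fun j => ?_
    have := h (Pi.single j 1, 0) (norm_basis_fst j)
    simpa [om, Pi.single_apply] using this

theorem norm_sg_le (l : PS J →L[ℝ] ℝ) : ‖sg l‖ ≤ ‖l‖ := by
  refine norm_le_of_om _ _ (norm_nonneg _) fun y hy => ?_
  rw [om_sg]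
  calc |l y| ≤ ‖l‖ * ‖y‖ := l.le_opNorm y
    _ ≤ ‖l‖ * 1 := by gcongr
    _ = ‖l‖ := mul_one _

omit [DecidableEq J] in
theorem isOpen_Cone : IsOpen (Cone J) := by
  have : Cone J = ⋂ j, {z : PS J | 0 < z.1 j} := by ext z; simp [Cone]
  rw [this]
  refine isOpen_iInter_of_finite fun j => ?_
  exact isOpen_lt continuous_const ((continuous_apply j).comp continuous_fst)

omit [Fintype J] [DecidableEq J] in
theorem convex_Cone : Convex ℝ (Cone J) := by
  intro x hx y hy a b ha hb hab j
  have h1 := hx j
  have h2 := hy j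
  simp only [Prod.fst_add, Prod.smul_fst, Pi.add_apply, Pi.smul_apply, smul_eq_mul]
  rcases lt_or_eq_of_le ha with h | h
  · have : 0 ≤ b * y.1 j := mul_nonneg hb h2.le
    have : 0 < a * x.1 j := mul_pos h h1
    linarith
  · have hb' : b = 1 := by linarith
    rw [← h, hb']; simpa using h2

omit [DecidableEq J] in
theorem Cone_mem_nhds {z : PS J} (hz : z ∈ Cone J) : Cone J ∈ 𝓝 z := isOpen_Cone.mem_nhds hz

omit [DecidableEq J] in
/-- symmetry of the second derivative -/
theorem hs_symm {f : PS J → ℝ} {z : PS J} (hf : ContDiffAt ℝ 2 f z) (x y : PS J) :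
    hs f z x y = hs f z y x := by
  have h := hf.isSymmSndFDerivAt (by simp)
  exact h x y

omit [DecidableEq J] in
theorem hs_add_left (f : PS J → ℝ) (z x x' y : PS J) : hs f z (x + x') y = hs f z x y + hs f z x' y := by
  unfold hs; rw [map_add]; rfl

omit [DecidableEq J] in
theorem hs_add_right (f : PS J → ℝ) (z x y y' : PS J) : hs f z x (y + y') = hs f z x y + hs f z x y' := by
  unfold hs; rw [map_add]

omit [DecidableEq J] in
theorem hs_smul_left (f : PS J → ℝ) (c : ℝ) (z x y : PS J) : hs f z (c • x) y = c * hs f z x y := by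
  unfold hs; rw [map_smul]; rfl

omit [DecidableEq J] in
theorem hs_smul_right (f : PS J → ℝ) (c : ℝ) (z x y : PS J) : hs f z x (c • y) = c * hs f z x y := by
  unfold hs; rw [map_smul]; rfl

theorem om_rot (S : Sys J K) (v : K → ℝ) (z x y : PS J) : om (S.rot v z x) y = S.hv v z x y := by
  have hlin : ∀ y : PS J, S.hv v z x y = (∑ k, v k • (fderiv ℝ (fun u => fderiv ℝ (S.H k) u) z x)) y := by
    intro y
    simp [Sys.hv, hs, ContinuousLinearMap.sum_apply]
  have h2 : S.rot v z x = sg (∑ k, v k • (fderiv ℝ (fun u => fderiv ℝ (S.H k) u) z x)) := by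
    unfold Sys.rot sg
    simp only [hlin]
  rw [h2, om_sg, hlin]

theorem om_X (S : Sys J K) (k : K) (z y : PS J) : om (S.X k z) y = fderiv ℝ (S.H k) z y := by
  unfold Sys.X; rw [om_sg]

theorem om_Xv (S : Sys J K) (v : K → ℝ) (z y : PS J) :
    om (S.Xv v z) y = ∑ k, v k * fderiv ℝ (S.H k) z y := by
  unfold Sys.Xv
  rw [om_sum_left]
  exact Finset.sum_congr rfl fun k _ => by rw [om_smul_left, om_X]

theorem om_ev_left (S : Sys J K) (v : K → ℝ) (y : PS J) : om (S.ev v) y = ∑ k, v k * om (S.e k) y := by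
  unfold Sys.ev
  rw [om_sum_left]
  exact Finset.sum_congr rfl fun k _ => by rw [om_smul_left]

theorem om_ev_right (S : Sys J K) (v : K → ℝ) (y : PS J) : om y (S.ev v) = ∑ k, v k * om y (S.e k) := by
  unfold Sys.ev
  rw [om_sum_right]
  exact Finset.sum_congr rfl fun k _ => by rw [om_smul_right]

theorem contDiffAt_H (S : Sys J K) (k : K) {z : PS J} (hz : z ∈ Cone J) :
    ContDiffAt ℝ 2 (S.H k) z := (S.smooth k).contDiffAt (Cone_mem_nhds hz)

theorem hs_H_symm (S : Sys J K) (k : K) {z : PS J} (hz : z ∈ Cone J) (x y : PS J) :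
    hs (S.H k) z x y = hs (S.H k) z y x := hs_symm (contDiffAt_H S k hz) x y

/-- Cauchy-Schwarz for the Hessian of a nonnegative combination -/
theorem hv_cauchy (S : Sys J K) (v : K → ℝ) (hv0 : ∀ k, 0 ≤ v k) {z : PS J} (hz : z ∈ Cone J)
    (x y : PS J) : (S.hv v z x y) ^ 2 ≤ S.hv v z x x * S.hv v z y y := by
  have hsym : S.hv v z x y = S.hv v z y x := by
    unfold Sys.hv; exact Finset.sum_congr rfl fun k _ => by rw [hs_H_symm S k hz]
  have hpos : ∀ x : PS J, 0 ≤ S.hv v z x x := fun x => by
    unfold Sys.hv; exact Finset.sum_nonneg fun k _ => mul_nonneg (hv0 k) (S.psd k z hz x)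
  have hexp : ∀ t : ℝ, S.hv v z (x + t • y) (x + t • y)
      = S.hv v z y y * (t * t) + 2 * S.hv v z x y * t + S.hv v z x x := by
    intro t
    have : ∀ k, v k * hs (S.H k) z (x + t • y) (x + t • y)
        = v k * hs (S.H k) z y y * (t * t) + 2 * (v k * hs (S.H k) z x y) * t
          + v k * hs (S.H k) z x x := by
      intro k
      rw [hs_add_left, hs_add_right, hs_add_right, hs_smul_left, hs_smul_left, hs_smul_right,
        hs_smul_right, hs_H_symm S k hz y x]
      ring
    unfold Sys.hv
    simp only [this, Finset.sum_add_distrib, ← Finset.sum_mul, ← Finset.mul_sum]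
  have hd : discrim (S.hv v z y y) (2 * S.hv v z x y) (S.hv v z x x) ≤ 0 := by
    refine discrim_le_zero fun t => ?_
    rw [← hexp t]; exact hpos _
  unfold discrim at hd
  nlinarith [hd]

end Pool.Agent.helper73.AD
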