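import Pool.Agent.helper73.AD.Basic

/-!
Families without the cardinality assumption (project ad).
-/

namespace Pool.Agent.helper73.AD

open scoped BigOperators Topology

/-- A family of beta twists, without the assumption card K = card J. -/
structure PreFamily {J K : Type} [Fintype J] [DecidableEq J] [Fintype K] [DecidableEq K]
    (w : K → Word J) where
  Z : (K → ℝ) → PS J
  mem : ∀ T, Z T ∈ Cone J
  dZ : ∀ T, HasFDerivAt Z (∑ k, (ContinuousLinearMap.proj k : (K → ℝ) →L[ℝ] ℝ).smulRight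
    (sg (fderiv ℝ (w k).H (Z T)))) T
  lev : K → ℝ
  level : ∀ T k, (w k).H (Z T) = lev k
  C1 : ℝ
  c1 : ℝ
  c1_pos : 0 < c1
  ang1 : ∀ T k i, 1 - (w k).ct i (Z T) ≤ C1 * Real.exp (-(T k))
  ang2 : ∀ T k i, 1 + (w k).ct i (Z T) ≤ C1 * Real.exp (T k)
  ang3 : ∀ T k i, c1 * Real.exp (-|T k|) ≤ 1 - |(w k).ct i (Z T)|

/-- CARD: the limit directions are isotropic and independent, so card K is at most card J -/
def CARD_stmt : Prop := ∀ (J K : Type) [Fintype J] [DecidableEq J] [Fintype K] [DecidableEq K]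
  (w : K → Word J), PreFamily w → Fintype.card K ≤ Fintype.card J

/-- a family from a pre-family -/
def PreFamily.toFamily {J K : Type} [Fintype J] [DecidableEq J] [Fintype K] [DecidableEq K]
    (D : AData J K) (Φ : PreFamily D.w) : Family D where
  Z := Φ.Z
  mem := Φ.mem
  dZ := Φ.dZ
  lev := Φ.lev
  level := Φ.level
  C1 := Φ.C1
  c1 := Φ.c1
  c1_pos := Φ.c1_pos
  ang1 := Φ.ang1
  ang2 := Φ.ang2
  ang3 := Φ.ang3

end Pool.Agent.helper73.AD
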