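import Pool.Agent.helper73.AD.Defs

/-!
Statements of the modules of the analytic core (project ad). Proofs: A29_73.md and AD_NOTES.md.
-/

namespace Pool.Agent.helper73.AD

open scoped BigOperators Topology

/-! ### linear algebra -/

/-- DX: Darboux complement of an independent isotropic family of full size -/
def DX_stmt : Prop := ∀ (J K : Type) [Fintype J] [DecidableEq J] [Fintype K] [DecidableEq K]
  (e : K → PS J), Fintype.card K = Fintype.card J → (∀ k m, om (e k) (e m) = 0) →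
  LinearIndependent ℝ e →
  ∃ f : K → PS J, (∀ k m, om (e k) (f m) = if k = m then 1 else 0) ∧ (∀ k m, om (f k) (f m) = 0)

/-- LG: an independent isotropic family of full size spans its own orthogonal -/
def LG_stmt : Prop := ∀ (J K : Type) [Fintype J] [DecidableEq J] [Fintype K] [DecidableEq K]
  (e : K → PS J), Fintype.card K = Fintype.card J → (∀ k m, om (e k) (e m) = 0) →
  LinearIndependent ℝ e →
  ∀ x : PS J, (∀ k, om (e k) x = 0) → ∃ c : K → ℝ, x = ∑ k, c k • e k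

/-! ### layer 1: abstract system -/

/-- IS: the Hamiltonian fields are pairwise orthogonal on a family -/
def IS_stmt : Prop := ∀ (J K : Type) [Fintype J] [DecidableEq J] [Fintype K] [DecidableEq K]
  (S : Sys J K) (Φ : SFam S) (T : K → ℝ) (k m : K), om (S.X k (Φ.Z T)) (S.X m (Φ.Z T)) = 0

/-- IE: the limit directions are isotropic and independent -/
def IE_stmt : Prop := ∀ (J K : Type) [Fintype J] [DecidableEq J] [Fintype K] [DecidableEq K]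
  (S : Sys J K) (_Φ : SFam S), (∀ k m, om (S.e k) (S.e m) = 0) ∧ LinearIndependent ℝ S.e

/-- DR: derivative of the Hamiltonian fields along a line of the family -/
def DR_stmt : Prop := ∀ (J K : Type) [Fintype J] [DecidableEq J] [Fintype K] [DecidableEq K]
  (S : Sys J K) (Φ : SFam S) (v κ T : K → ℝ) (s : ℝ),
  HasDerivAt (fun s : ℝ => S.Xv v (Φ.Z (T + s • κ)))
    (S.rot κ (Φ.Z (T + s • κ)) (S.Xv v (Φ.Z (T + s • κ)))) s

/-- NZ: the Hamiltonian fields are independent on a family -/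
def NZ_stmt : Prop := ∀ (J K : Type) [Fintype J] [DecidableEq J] [Fintype K] [DecidableEq K]
  (S : Sys J K) (Φ : SFam S) (T w : K → ℝ), S.Xv w (Φ.Z T) = 0 → w = 0

/-- PD: positive combinations have positive definite Hessian, locally uniformly -/
def PD_stmt : Prop := ∀ (J K : Type) [Fintype J] [DecidableEq J] [Fintype K] [DecidableEq K]
  (S : Sys J K) (τ : K → ℝ), (∀ k, 0 < τ k) →
  (∀ z ∈ Cone J, ∀ x : PS J, x ≠ 0 → 0 < S.hv τ z x x) ∧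
  (∀ z ∈ Cone J, ∃ c : ℝ, 0 < c ∧ ∀ᶠ u in 𝓝 z, ∀ x : PS J, c * ‖x‖ ^ 2 ≤ S.hv τ u x x)

/-- SC: tangent inequality for the weighted sum, with its equality case -/
def SC_stmt : Prop := ∀ (J K : Type) [Fintype J] [DecidableEq J] [Fintype K] [DecidableEq K]
  (S : Sys J K) (z u : PS J), z ∈ Cone J → u ∈ Cone J →
  ∑ k, S.b k * S.H k z + om (S.Xv S.b z) (u - z) ≤ ∑ k, S.b k * S.H k u ∧
  (∑ k, S.b k * S.H k z + om (S.Xv S.b z) (u - z) = ∑ k, S.b k * S.H k u → u = z)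

/-- KA: strictness in the key lemma: vanishing of the Hessian along a whole ray -/
def KA_stmt : Prop := ∀ (J K : Type) [Fintype J] [DecidableEq J] [Fintype K] [DecidableEq K]
  (S : Sys J K) (Φ : SFam S) (ε : ℝ) (_hε : ε = 1 ∨ ε = -1) (s : Finset K) (T v : K → ℝ),
  (∀ k, k ∉ s → v k = 0) →
  (∀ u : ℝ, 0 ≤ u → S.hv (fun k => if k ∈ s then 1 else 0)
    (Φ.Z (T + u • (fun k => if k ∈ s then ε else 0)))
    (S.Xv v (Φ.Z (T + u • (fun k => if k ∈ s then ε else 0))))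
    (S.Xv v (Φ.Z (T + u • (fun k => if k ∈ s then ε else 0)))) = 0) → v = 0

/-- KY: the key lemma -/
def KY_stmt : Prop := ∀ (J K : Type) [Fintype J] [DecidableEq J] [Fintype K] [DecidableEq K]
  (S : Sys J K) (Φ : SFam S), ∃ C0 : ℝ, 0 ≤ C0 ∧ ∀ (ε : ℝ) (_hε : ε = 1 ∨ ε = -1)
  (s : Finset K) (R : ℝ) (T v : K → ℝ), 0 ≤ R → (∀ k ∈ s, R ≤ ε * T k) →
  (∀ k, k ∉ s → v k = 0) →
  ∃ I : ℝ, 0 ≤ I ∧ (v ≠ 0 → 0 < I) ∧
    ‖S.Xv v (Φ.Z T) - ε • S.ev v‖ ≤ C0 * Real.exp (-R / 2) * Real.sqrt I ∧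
    om (S.Xv v (Φ.Z T)) (S.ev v) ≤ -(1 - C0 * Real.exp (-R)) * I

/-- ND: negativity when at most one parameter is small -/
def ND_stmt : Prop := ∀ (J K : Type) [Fintype J] [DecidableEq J] [Fintype K] [DecidableEq K]
  (S : Sys J K) (Φ : SFam S), ∃ R R' : ℝ, 0 < R ∧ R ≤ R' ∧ ∀ T : K → ℝ,
  ((∀ k, R ≤ |T k|) ∨ (∃ m, |T m| ≤ R ∧ ∀ k, k ≠ m → R' ≤ |T k|)) →
  ∀ w : K → ℝ, w ≠ 0 → om (S.Xv w (Φ.Z T)) (S.ev w) < 0

/-- the set of lines in direction (1,..,1) that meet the singular set -/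
def Bad {J K : Type} [Fintype J] [DecidableEq J] [Fintype K] [DecidableEq K]
    {S : Sys J K} (Φ : SFam S) : Set (K → ℝ) :=
  {T | ∃ s : ℝ, ∃ w : K → ℝ, w ≠ 0 ∧
    ∀ k, om (S.Xv w (Φ.Z (T + s • (fun _ => (1 : ℝ))))) (S.e k) = 0}

/-- OP: Bad is open -/
def OP_stmt : Prop := ∀ (J K : Type) [Fintype J] [DecidableEq J] [Fintype K] [DecidableEq K]
  (S : Sys J K) (Φ : SFam S), IsOpen (Bad Φ)

/-- CL: Bad is closed -/
def CL_stmt : Prop := ∀ (J K : Type) [Fintype J] [DecidableEq J] [Fintype K] [DecidableEq K]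
  (S : Sys J K) (Φ : SFam S), IsClosed (Bad Φ)

/-- NS: nowhere singular -/
def NS_stmt : Prop := ∀ (J K : Type) [Fintype J] [DecidableEq J] [Fintype K] [DecidableEq K]
  (S : Sys J K) (Φ : SFam S) (T w : K → ℝ),
  (∀ k, om (S.Xv w (Φ.Z T)) (S.e k) = 0) → w = 0

/-- TB: a proper local homeomorphism onto an open box, injective over one point, is bijective -/
def TB_stmt : Prop := ∀ (K : Type) [Fintype K] (f : (K → ℝ) → (K → ℝ)) (l : K → ℝ),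
  Continuous f → (∀ T, Filter.map f (𝓝 T) = 𝓝 (f T)) → (∀ T, ∃ U ∈ 𝓝 T, Set.InjOn f U) →
  (∀ T k, |f T k| < l k) →
  (∀ c : ℝ, 0 < c → ∃ R : ℝ, ∀ T, (∀ k, |f T k| ≤ l k - c) → ∀ k, |T k| ≤ R) →
  (∃ y : K → ℝ, (∀ k, |y k| < l k) ∧ ∀ T T', f T = y → f T' = y → T = T') →
  ∀ y : K → ℝ, (∀ k, |y k| < l k) → ∃! T, f T = y

/-- YB: the y-coordinates are a bijection of the family onto the box -/
def YB_stmt : Prop := ∀ (J K : Type) [Fintype J] [DecidableEq J] [Fintype K] [DecidableEq K]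
  (S : Sys J K) (Φ : SFam S) (y : K → ℝ), (∀ k, |y k| < Φ.lev k) →
  ∃! T : K → ℝ, ∀ k, om (S.e k) (Φ.Z T) = y k

/-- YP: lifting of differentiable paths -/
def YP_stmt : Prop := ∀ (J K : Type) [Fintype J] [DecidableEq J] [Fintype K] [DecidableEq K]
  (S : Sys J K) (Φ : SFam S) (y y' : ℝ → K → ℝ) (U : Set ℝ), IsOpen U →
  (∀ t ∈ U, HasDerivAt y (y' t) t) → (∀ t ∈ U, ∀ k, |y t k| < Φ.lev k) →
  ∃ Th Th' : ℝ → K → ℝ, (∀ t ∈ U, HasDerivAt Th (Th' t) t) ∧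
    ∀ t ∈ U, ∀ k, om (S.e k) (Φ.Z (Th t)) = y t k

/-- PR: primitive of the one-form om (dZ, Z) -/
def PR_stmt : Prop := ∀ (J K : Type) [Fintype J] [DecidableEq J] [Fintype K] [DecidableEq K]
  (S : Sys J K) (Φ : SFam S), ∃ φ : (K → ℝ) → ℝ, ∀ T,
  HasFDerivAt φ (∑ k, om (S.X k (Φ.Z T)) (Φ.Z T) •
    (ContinuousLinearMap.proj k : (K → ℝ) →L[ℝ] ℝ)) T

/-- FI: uniqueness for abstract systems -/
def FI_stmt : Prop := ∀ (J K : Type) [Fintype J] [DecidableEq J] [Fintype K] [DecidableEq K]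
  (S : Sys J K) (Φ Ψ : SFam S), Φ.Z S.b - Φ.Z 0 = Ψ.Z S.b - Ψ.Z 0 → Φ.Z 0 = Ψ.Z 0

/-! ### layer 2: arcs -/

/-- GS: smoothness -/
def GS_stmt : Prop := ∀ (J : Type) [Fintype J] [DecidableEq J],
  (∀ (A : Arc J) (s s' : Bool), ContDiffOn ℝ 2 (fun z : PS J => A.g s s' z.1) (Cone J)) ∧
  (∀ (w : Word J) (σ : Fin (w.n + 1) → Bool), ContDiffOn ℝ 2 (w.L σ) (Cone J)) ∧
  (∀ (w : Word J) (b : Bool) (σ : Fin (w.n + 1) → Bool), ContDiffOn ℝ 2 (w.Lp b σ) (Cone J)) ∧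
  (∀ w : Word J, ContDiffOn ℝ 2 w.F (Cone J)) ∧
  (∀ w : Word J, (∀ z ∈ Cone J, 2 < w.F z) → ContDiffOn ℝ 2 w.H (Cone J))

/-- DT: determinant one for the arc matrices -/
def DT_stmt : Prop := ∀ (J : Type) (A : Arc J) (q : J → ℝ), (∀ j, 0 < q j) →
  A.g false false q = A.g true true q ∧
  Real.exp (2 * A.g true true q) = 1 + Real.exp (A.g true false q + A.g false true q)

/-- CV: convexity of the logarithms of the entries, strict for the diagonal ones -/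
def CV_stmt : Prop := ∀ (J : Type) [Fintype J] [DecidableEq J] (A : Arc J) (z : PS J),
  z ∈ Cone J → ∀ x : PS J,
  (∀ s s' : Bool, 0 ≤ hs (fun z : PS J => A.g s s' z.1) z x x) ∧
  (hs (fun z : PS J => A.g true true z.1) z x x = 0 →
    x.1 A.c1 = 0 ∧ x.1 A.c2 = 0 ∧ x.1 A.c3 = 0)

/-- BD: bounds of the logarithmic derivatives -/
def BD_stmt : Prop := ∀ (J : Type) [Fintype J] [DecidableEq J] (δ : ℝ), 0 < δ →
  ∃ B : ℝ, 0 ≤ B ∧ ∀ (A : Arc J) (z : PS J), z ∈ Cone J → δ ≤ z.1 A.src → δ ≤ z.1 A.tgt →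
  ∀ (s s' : Bool) (x y : PS J),
  |fderiv ℝ (fun z : PS J => A.g s s' z.1) z x| ≤ B * ‖x‖ ∧
  |hs (fun z : PS J => A.g s s' z.1) z x y| ≤ B * ‖x‖ * ‖y‖

/-- LB: lower bound of the diagonal entries -/
def LB_stmt : Prop := ∀ (J : Type) (A : Arc J) (q : J → ℝ), (∀ j, 0 < q j) →
  1 / q A.src ≤ Real.exp (2 * A.g true true q)

/-! ### layer 2: Kingman convexity -/

/-- KB: Hessian of a log-sum-exp -/
def KB_stmt : Prop := ∀ (J ι : Type) [Fintype J] [DecidableEq J] [Fintype ι] [Nonempty ι]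
  (L : ι → PS J → ℝ) (z : PS J), (∀ i, ContDiffAt ℝ 2 (L i) z) → ∀ x : PS J,
  hs (fun u => Real.log (∑ i, Real.exp (L i u))) z x x
    = (∑ i, Real.exp (L i z) * hs (L i) z x x) / (∑ i, Real.exp (L i z))
      + (∑ i, ∑ j, Real.exp (L i z) * Real.exp (L j z)
          * (fderiv ℝ (L i) z x - fderiv ℝ (L j) z x) ^ 2) / (2 * (∑ i, Real.exp (L i z)) ^ 2)

/-- KC: the two by two case, as a statement on second order jets -/
def KC_stmt : Prop := ∀ a d r h a1 d1 r1 h1 a2 d2 r2 h2 : ℝ, 0 < h →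
  Real.exp (a + d) = 1 + Real.exp r →
  Real.exp (a + d) * (a1 + d1) = Real.exp r * r1 →
  Real.exp (a + d) * ((a1 + d1) ^ 2 + (a2 + d2)) = Real.exp r * (r1 ^ 2 + r2) →
  2 * Real.cosh (h / 2) = Real.exp a + Real.exp d →
  Real.sinh (h / 2) * h1 = Real.exp a * a1 + Real.exp d * d1 →
  Real.cosh (h / 2) * h1 ^ 2 / 2 + Real.sinh (h / 2) * h2
    = Real.exp a * (a1 ^ 2 + a2) + Real.exp d * (d1 ^ 2 + d2) →
  0 ≤ a2 → 0 ≤ d2 → 0 ≤ r2 →
  0 ≤ h2 ∧ (h2 = 0 → a2 = 0 ∧ d2 = 0 ∧ a1 = 0 ∧ d1 = 0)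

/-- TP: entries of the product of the step matrices are path sums -/
def TP_stmt : Prop := ∀ (J : Type) (w : Word J) (z : PS J) (a b : Bool),
  (List.ofFn (fun i => w.mat z i)).prod a b = w.Mp a b z

/-- TD: determinant one for path sums, and the trace -/
def TD_stmt : Prop := ∀ (J : Type) (w : Word J) (z : PS J), z ∈ Cone J →
  w.Mp true true z * w.Mp false false z - w.Mp true false z * w.Mp false true z = 1 ∧
  w.F z = w.Mp true true z + w.Mp false false z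

/-- KD: convexity of the length functions and kernel of their Hessian -/
def KD_stmt : Prop := ∀ (J : Type) [Fintype J] [DecidableEq J] (w : Word J) (z : PS J),
  z ∈ Cone J → ∀ x : PS J, 0 ≤ hs w.H z x x ∧ (hs w.H z x x = 0 → x ∈ w.N)

/-- IV: the length function is constant in the directions of N -/
def IV_stmt : Prop := ∀ (J : Type) [Fintype J] [DecidableEq J] (w : Word J) (z : PS J),
  z ∈ Cone J → ∀ x ∈ w.N, fderiv ℝ w.H z x = 0

/-! ### layer 2: estimates -/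

/-- BF: basic formulas -/
def BF_stmt : Prop := ∀ (J : Type) [Fintype J] [DecidableEq J] (w : Word J) (z : PS J),
  z ∈ Cone J →
  2 < w.F z ∧ 0 < w.H z ∧ 2 * Real.cosh (w.H z / 2) = w.F z ∧
  w.W (fun _ => true) z = Real.exp (w.Y z / 2 + w.lP z) ∧
  w.W (fun _ => false) z = Real.exp (-(w.Y z / 2) + w.lP z) ∧
  w.F z = 2 * Real.exp (w.lP z) * Real.cosh (w.Y z / 2) + w.Wm z ∧
  0 < w.lP z ∧ Real.exp (w.lP z) ≤ Real.cosh (w.H z / 2) ∧ 0 ≤ w.Wm z ∧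
  (∀ i, ∑ σ : Fin (w.n + 1) → Bool, (if σ i = true then w.W σ z else 0)
    = Real.exp (-(w.H z / 2)) + Real.sinh (w.H z / 2) * (1 - w.ct i z)) ∧
  (∀ i, ∑ σ : Fin (w.n + 1) → Bool, (if σ i = false then w.W σ z else 0)
    = Real.exp (-(w.H z / 2)) + Real.sinh (w.H z / 2) * (1 + w.ct i z)) ∧
  (∀ i, |w.ct i z| < 1) ∧
  (∀ i, Real.exp ((w.A i).g true false z.1 + (w.A i).g false true z.1)
    ≤ Real.exp (2 * w.lP z) - 1) ∧
  om w.e z = - w.Y z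

/-- QB: lower bound of the lengths of the crossed curves -/
def QB_stmt : Prop := ∀ (J : Type) [Fintype J] [DecidableEq J] (w : Word J) (z : PS J),
  z ∈ Cone J → ∀ i, 1 / Real.cosh (w.H z / 2) ^ 2 ≤ z.1 (w.j i)

/-- EU: upper bound of eps by the angle defects -/
def EU_stmt : Prop := ∀ (J : Type) [Fintype J] [DecidableEq J] (w : Word J) (z : PS J),
  z ∈ Cone J → ∀ ϑ : ℝ,
  ((∀ i, 1 - w.ct i z ≤ ϑ) → w.eps z ≤ (Real.exp (w.H z / 2) + (w.n + 1)) *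
    Real.sinh (w.H z / 2) * ϑ) ∧
  ((∀ i, 1 + w.ct i z ≤ ϑ) → w.eps z ≤ (Real.exp (w.H z / 2) + (w.n + 1)) *
    Real.sinh (w.H z / 2) * ϑ)

/-- EL: lower bound of eps by the angle defects -/
def EL_stmt : Prop := ∀ (J : Type) [Fintype J] [DecidableEq J] (l : ℝ), 0 < l →
  ∃ C : ℝ, 0 < C ∧ ∀ (w : Word J) (z : PS J), z ∈ Cone J → w.H z = l → ∀ i,
  1 - |w.ct i z| ≤ C * w.eps z

/-- BX: position of y in the box -/
def BX_stmt : Prop := ∀ (J : Type) [Fintype J] [DecidableEq J] (w : Word J) (l : ℝ), 0 < l →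
  ∃ C : ℝ, 0 < C ∧ ∀ z : PS J, z ∈ Cone J → w.H z = l →
  (∀ ϑ : ℝ, (∀ i, 1 - w.ct i z ≤ ϑ) → l - om w.e z ≤ C * ϑ) ∧
  (∀ ϑ : ℝ, (∀ i, 1 + w.ct i z ≤ ϑ) → l + om w.e z ≤ C * ϑ) ∧
  w.eps z ≤ (l - |om w.e z|) * Real.sinh (l / 2)

/-- XA: the Hamiltonian field is close to the limit direction -/
def XA_stmt : Prop := ∀ (J : Type) [Fintype J] [DecidableEq J] (w : Word J) (l : ℝ), 0 < l →
  ∃ C : ℝ, 0 < C ∧ ∀ z : PS J, z ∈ Cone J → w.H z = l →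
  (∀ ϑ : ℝ, (∀ i, 1 - w.ct i z ≤ ϑ) → ‖sg (fderiv ℝ w.H z) - w.e‖ ≤ C * ϑ) ∧
  (∀ ϑ : ℝ, (∀ i, 1 + w.ct i z ≤ ϑ) → ‖sg (fderiv ℝ w.H z) + w.e‖ ≤ C * ϑ)

/-- HB: the Hessian is small -/
def HB_stmt : Prop := ∀ (J : Type) [Fintype J] [DecidableEq J] (w : Word J) (l : ℝ), 0 < l →
  ∃ C : ℝ, 0 < C ∧ ∀ z : PS J, z ∈ Cone J → w.H z = l →
  ∀ x y : PS J, |hs w.H z x y| ≤ C * w.eps z * ‖x‖ * ‖y‖

/-- SL: slopes in a direction in which eps decays along one curve -/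
def SL_stmt : Prop := ∀ (J : Type) [Fintype J] [DecidableEq J] (w : Word J) (u : PS J) (τ l C : ℝ)
  (ζ : ℝ → PS J), (∀ j, 0 ≤ u.1 j) → om w.e u = 0 → 0 < τ →
  (∀ s : ℝ, 0 ≤ s → ζ s ∈ Cone J ∧ w.H (ζ s) = l ∧ ‖ζ s - s • u‖ ≤ C ∧
    w.eps (ζ s) ≤ C * Real.exp (-(τ * s))) →
  ∀ z : PS J, z ∈ Cone J →
    fderiv ℝ w.H z u ≤ -(τ * w.eps z / (Real.cosh (w.H z / 2) ^ 2 * Real.sinh (w.H z / 2)))

/-! ### assembly -/

/-- SA: the system of the data -/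
def SA_stmt : Prop := ∀ (J K : Type) [Fintype J] [DecidableEq J] [Fintype K] [DecidableEq K]
  (D : AData J K), ∃ S : Sys J K, (∀ k, S.H k = (D.w k).H) ∧ (∀ k, S.e k = (D.w k).e) ∧ S.b = D.b

/-- SB: every family is a family of the system -/
def SB_stmt : Prop := ∀ (J K : Type) [Fintype J] [DecidableEq J] [Fintype K] [DecidableEq K]
  (D : AData J K) (S : Sys J K), (∀ k, S.H k = (D.w k).H) → (∀ k, S.e k = (D.w k).e) →
  S.b = D.b → ∀ Φ : Family D, ∃ Ψ : SFam S, Ψ.Z = Φ.Z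

/-- MAIN: theorem A -/
def MAIN_stmt : Prop := ∀ (J K : Type) [Fintype J] [DecidableEq J] [Fintype K] [DecidableEq K]
  (D : AData J K) (Φ Ψ : Family D), Φ.Z D.b - Φ.Z 0 = Ψ.Z D.b - Ψ.Z 0 → Φ.Z 0 = Ψ.Z 0

end Pool.Agent.helper73.AD
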