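import Mathlib

/-!
Definitions for the analytic core of MP_a29257_gt (project ad).
-/

namespace Pool.Agent.helper73.AD

open scoped BigOperators Topology

noncomputable section

/-- Phase space: pairs (q,p), lengths and twists of the alpha curves. -/
abbrev PS (J : Type) : Type := (J → ℝ) × (J → ℝ)

/-- The symplectic form: sum of dp_j wedge dq_j. -/
def om {J : Type} [Fintype J] (x y : PS J) : ℝ :=
  ∑ j, (x.2 j * y.1 j - x.1 j * y.2 j)

/-- The vector of a covector: om (sg l) y = l y. -/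
def sg {J : Type} [Fintype J] [DecidableEq J] (l : PS J →L[ℝ] ℝ) : PS J :=
  (fun j => - l (0, Pi.single j 1), fun j => l (Pi.single j 1, 0))

/-- The open cone where all lengths are positive. -/
def Cone (J : Type) : Set (PS J) := {z | ∀ j, 0 < z.1 j}

/-- Second derivative as a bilinear function. -/
def hs {J : Type} [Fintype J] (f : PS J → ℝ) (z x y : PS J) : ℝ :=
  fderiv ℝ (fun u => fderiv ℝ f u) z x y

/-- log cosh -/
def lc (x : ℝ) : ℝ := Real.log (Real.cosh x)

/-- log sinh -/
def ls (x : ℝ) : ℝ := Real.log (Real.sinh x)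

/-- sign of a Boolean: true is +1, false is -1 -/
def bs (s : Bool) : ℝ := if s then 1 else -1

/-- Arcs of a beta curve in a pair of pants of alpha. `seam a b c` goes from the cuff a to the
cuff b (c is the third cuff), `wave a b c` goes from the cuff a to the cuff a, around b. -/
inductive Arc (J : Type) : Type
  | seam (a b c : J) : Arc J
  | wave (a b c : J) : Arc J

namespace Arc

variable {J : Type}

/-- cuff where the arc starts -/
def src : Arc J → J
  | seam a _ _ => a
  | wave a _ _ => a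

/-- cuff where the arc ends -/
def tgt : Arc J → J
  | seam _ b _ => b
  | wave a _ _ => a

/-- first cuff of the pair of pants -/
def c1 : Arc J → J
  | seam a _ _ => a
  | wave a _ _ => a

/-- second cuff of the pair of pants -/
def c2 : Arc J → J
  | seam _ b _ => b
  | wave _ b _ => b

/-- third cuff of the pair of pants -/
def c3 : Arc J → J
  | seam _ _ c => c
  | wave _ _ c => c

/-- logarithms of the entries of the arc matrix -/
def g : Arc J → Bool → Bool → (J → ℝ) → ℝ
  | seam a b c, true, true, q =>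
      (lc ((q a + q b + q c) / 4) + lc ((q a + q b - q c) / 4) - ls (q a / 2) - ls (q b / 2)) / 2
  | seam a b c, false, false, q =>
      (lc ((q a + q b + q c) / 4) + lc ((q a + q b - q c) / 4) - ls (q a / 2) - ls (q b / 2)) / 2
  | seam a b c, true, false, q =>
      (lc ((q a - q b + q c) / 4) + lc ((-q a + q b + q c) / 4) - ls (q a / 2) - ls (q b / 2)) / 2
  | seam a b c, false, true, q =>
      (lc ((q a - q b + q c) / 4) + lc ((-q a + q b + q c) / 4) - ls (q a / 2) - ls (q b / 2)) / 2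
  | wave a b c, true, true, q =>
      Real.log 2 + (lc ((q a + q b + q c) / 4) + lc ((-q a + q b + q c) / 4)
        + lc ((q a - q b + q c) / 4) + lc ((q a + q b - q c) / 4)) / 2 - ls (q a / 2)
  | wave a b c, false, false, q =>
      Real.log 2 + (lc ((q a + q b + q c) / 4) + lc ((-q a + q b + q c) / 4)
        + lc ((q a - q b + q c) / 4) + lc ((q a + q b - q c) / 4)) / 2 - ls (q a / 2)
  | wave a b c, true, false, q =>
      Real.log (Real.cosh (q b / 2) * Real.exp (-(q a / 2)) + Real.cosh (q c / 2)) - ls (q a / 2)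
  | wave a b c, false, true, q =>
      Real.log (Real.cosh (q b / 2) * Real.exp (q a / 2) + Real.cosh (q c / 2)) - ls (q a / 2)

end Arc

/-- A closed cyclic word: crossings i in Fin (n+1) with alpha curves j i, twist shift c i and the
arc A i from crossing i to crossing i+1. -/
structure Word (J : Type) where
  n : ℕ
  j : Fin (n + 1) → J
  c : Fin (n + 1) → ℝ
  A : Fin (n + 1) → Arc J
  src_eq : ∀ i, (A i).src = j i
  tgt_eq : ∀ i, (A i).tgt = j (i + 1)

namespace Word

variable {J : Type}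

/-- the linear twist parameter at crossing i -/
def t (w : Word J) (i : Fin (w.n + 1)) (z : PS J) : ℝ := z.2 (w.j i) + w.c i * z.1 (w.j i)

/-- logarithm of the weight of a sign sequence -/
def L (w : Word J) (σ : Fin (w.n + 1) → Bool) (z : PS J) : ℝ :=
  ∑ i, (bs (σ i) * w.t i z / 2 + (w.A i).g (σ i) (σ (i + 1)) z.1)

/-- weight of a sign sequence -/
def W (w : Word J) (σ : Fin (w.n + 1) → Bool) (z : PS J) : ℝ := Real.exp (w.L σ z)

/-- the trace: sum of all weights -/
def F (w : Word J) (z : PS J) : ℝ := ∑ σ : Fin (w.n + 1) → Bool, w.W σ z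

/-- the length function: F = 2 cosh (H/2) -/
def H (w : Word J) (z : PS J) : ℝ :=
  2 * Real.log ((w.F z + Real.sqrt (w.F z ^ 2 - 4)) / 2)

/-- cosine of the crossing angle -/
def ct (w : Word J) (i : Fin (w.n + 1)) (z : PS J) : ℝ :=
  -(∑ σ : Fin (w.n + 1) → Bool, bs (σ i) * w.W σ z) / (2 * Real.sinh (w.H z / 2))

/-- sum of the twist parameters -/
def Y (w : Word J) (z : PS J) : ℝ := ∑ i, w.t i z

/-- logarithm of the product of the diagonal entries -/
def lP (w : Word J) (z : PS J) : ℝ := ∑ i, (w.A i).g true true z.1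

/-- a sign sequence is mixed if it takes both values -/
def Mixed (w : Word J) (σ : Fin (w.n + 1) → Bool) : Prop :=
  (∃ i, σ i = true) ∧ (∃ i, σ i = false)

instance (w : Word J) (σ : Fin (w.n + 1) → Bool) : Decidable (w.Mixed σ) := by
  unfold Mixed; infer_instance

/-- sum of the mixed weights -/
def Wm (w : Word J) (z : PS J) : ℝ := ∑ σ : Fin (w.n + 1) → Bool, if w.Mixed σ then w.W σ z else 0

/-- the smallness parameter -/
def eps (w : Word J) (z : PS J) : ℝ := (Real.exp (w.lP z) - 1) + w.Wm z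

/-- limit direction of the Hamiltonian vector field -/
def e (w : Word J) [DecidableEq J] : PS J :=
  (fun j => ∑ i, if w.j i = j then (1 : ℝ) else 0, fun j => -∑ i, if w.j i = j then w.c i else 0)

/-- directions in which the length function is constant -/
def N (w : Word J) : Set (PS J) :=
  {x | ∀ i, x.1 (w.A i).c1 = 0 ∧ x.1 (w.A i).c2 = 0 ∧ x.1 (w.A i).c3 = 0 ∧ x.2 (w.j i) = 0}

/-- logarithm of the weight of a path with sign sequence σ and end sign b -/
def Lp (w : Word J) (b : Bool) (σ : Fin (w.n + 1) → Bool) (z : PS J) : ℝ :=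
  ∑ i, (bs (σ i) * w.t i z / 2
    + (w.A i).g (σ i) (if i = Fin.last w.n then b else σ (i + 1)) z.1)

/-- path sum from the sign a to the sign b: entry (a,b) of the product matrix -/
def Mp (w : Word J) (a b : Bool) (z : PS J) : ℝ :=
  ∑ σ : Fin (w.n + 1) → Bool, if σ 0 = a then Real.exp (w.Lp b σ z) else 0

/-- matrix of the i-th step -/
def mat (w : Word J) (z : PS J) (i : Fin (w.n + 1)) : Matrix Bool Bool ℝ :=
  fun s s' => Real.exp (bs s * w.t i z / 2 + (w.A i).g s s' z.1)

end Word

/-- The combinatorial data: beta curves k in K as words in the alpha curves J, weights b, and the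
filling condition. -/
structure AData (J K : Type) [Fintype J] [Fintype K] where
  w : K → Word J
  b : K → ℝ
  b_nonneg : ∀ k, 0 ≤ b k
  fill : ∀ j, ∃ k, 0 < b k ∧ ∃ i, (w k).j i = j
  card : Fintype.card K = Fintype.card J

/-- A family of beta twists in the linear alpha coordinates. -/
structure Family {J K : Type} [Fintype J] [DecidableEq J] [Fintype K] [DecidableEq K]
    (D : AData J K) where
  Z : (K → ℝ) → PS J
  mem : ∀ T, Z T ∈ Cone J
  dZ : ∀ T, HasFDerivAt Z (∑ k, (ContinuousLinearMap.proj k : (K → ℝ) →L[ℝ] ℝ).smulRight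
    (sg (fderiv ℝ (D.w k).H (Z T)))) T
  lev : K → ℝ
  level : ∀ T k, (D.w k).H (Z T) = lev k
  C1 : ℝ
  c1 : ℝ
  c1_pos : 0 < c1
  ang1 : ∀ T k i, 1 - (D.w k).ct i (Z T) ≤ C1 * Real.exp (-(T k))
  ang2 : ∀ T k i, 1 + (D.w k).ct i (Z T) ≤ C1 * Real.exp (T k)
  ang3 : ∀ T k i, c1 * Real.exp (-|T k|) ≤ 1 - |(D.w k).ct i (Z T)|

/-- Abstract system: N convex Hamiltonians with constant null spaces. -/
structure Sys (J K : Type) [Fintype J] [DecidableEq J] [Fintype K] [DecidableEq K] where
  H : K → PS J → ℝ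
  e : K → PS J
  N : K → Set (PS J)
  b : K → ℝ
  card : Fintype.card K = Fintype.card J
  b_nonneg : ∀ k, 0 ≤ b k
  smooth : ∀ k, ContDiffOn ℝ 2 (H k) (Cone J)
  psd : ∀ k, ∀ z ∈ Cone J, ∀ x, 0 ≤ hs (H k) z x x
  ker : ∀ k, ∀ z ∈ Cone J, ∀ x, hs (H k) z x x = 0 → x ∈ N k
  inv : ∀ k, ∀ z ∈ Cone J, ∀ x ∈ N k, fderiv ℝ (H k) z x = 0
  fill : ∀ x, (∀ k, 0 < b k → x ∈ N k) → x = 0

namespace Sys

variable {J K : Type} [Fintype J] [DecidableEq J] [Fintype K] [DecidableEq K]

/-- Hamiltonian vector field of the k-th Hamiltonian -/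
def X (S : Sys J K) (k : K) (z : PS J) : PS J := sg (fderiv ℝ (S.H k) z)

/-- linear combination of the Hamiltonian fields -/
def Xv (S : Sys J K) (v : K → ℝ) (z : PS J) : PS J := ∑ k, v k • S.X k z

/-- linear combination of the limit directions -/
def ev (S : Sys J K) (v : K → ℝ) : PS J := ∑ k, v k • S.e k

/-- Hessian of a combination of the Hamiltonians -/
def hv (S : Sys J K) (v : K → ℝ) (z x y : PS J) : ℝ := ∑ k, v k * hs (S.H k) z x y

/-- the vector with om (rot v z x) y = hv v z x y -/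
def rot (S : Sys J K) (v : K → ℝ) (z x : PS J) : PS J :=
  (fun j => - S.hv v z x (0, Pi.single j 1), fun j => S.hv v z x (Pi.single j 1, 0))

end Sys

/-- A family of the abstract system with its asymptotic estimates. -/
structure SFam {J K : Type} [Fintype J] [DecidableEq J] [Fintype K] [DecidableEq K]
    (S : Sys J K) where
  Z : (K → ℝ) → PS J
  mem : ∀ T, Z T ∈ Cone J
  dZ : ∀ T, HasFDerivAt Z (∑ k, (ContinuousLinearMap.proj k : (K → ℝ) →L[ℝ] ℝ).smulRight
    (S.X k (Z T))) T
  lev : K → ℝ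
  level : ∀ T k, S.H k (Z T) = lev k
  C : ℝ
  C_pos : 0 < C
  ep : ∀ T k, ‖S.X k (Z T) - S.e k‖ ≤ C * Real.exp (-(T k))
  em : ∀ T k, ‖S.X k (Z T) + S.e k‖ ≤ C * Real.exp (T k)
  hb : ∀ T k x y, |hs (S.H k) (Z T) x y| ≤ C * Real.exp (-|T k|) * ‖x‖ * ‖y‖
  box : ∀ T k, |om (S.e k) (Z T)| < lev k
  boxp : ∀ T k, lev k - om (S.e k) (Z T) ≤ C * Real.exp (-(T k))
  boxm : ∀ T k, lev k + om (S.e k) (Z T) ≤ C * Real.exp (T k)
  boxc : ∀ R : ℝ, ∃ c : ℝ, 0 < c ∧ ∀ T k, |T k| ≤ R → |om (S.e k) (Z T)| ≤ lev k - c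
  neg : ∀ T m k, om (S.X m (Z T)) (S.e k) ≤ 0
  dneg : ∀ R : ℝ, ∃ R' c : ℝ, 0 < c ∧ ∀ T m, |T m| ≤ R → (∀ k, k ≠ m → R' ≤ |T k|) →
    om (S.X m (Z T)) (S.e m) ≤ -c

end

end Pool.Agent.helper73.AD
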