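import Pool.Agent.helper69.AD.GS5

/-!
Definitions for the Wolpert part (WD_stmt) of the project ad: seam vectors, velocities, fluxes,
triples of leaves.
-/

open scoped MatrixGroups LinearAlgebra.Projectivization BigOperators
open Matrix UpperHalfPlane
open Pool.Agent.helper73.AD (PS Word Arc sg Cone)

namespace AdSBend

noncomputable section

open LeafSystem

/-! ### vectors -/

/-- two by two matrices -/
abbrev M2 : Type := Matrix (Fin 2) (Fin 2) ℝ

/-- conjugation -/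
def cj (g : SL(2, ℝ)) (X : M2) : M2 := g.1 * X * (g⁻¹).1

/-- unit vector of the seam direction in a seam frame -/
def eM : M2 := !![0, 1; 1, 0]

/-- unit vector of the common perpendicular from the axis `a` to the axis `x` (unit vectors):
`cj F eM` when `F` is the seam frame -/
def smV (a x : M2) : M2 := (Real.sqrt (ip a x ^ 2 - 1))⁻¹ • (a * x - ip a x • (1 : M2))

/-- twist parameter between the seam `s` on one side and the seam `s'` on the other side, where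
`a'` is the unit vector of the leaf oriented for the second side: the number `t` with
`PEq F (F' * Rm * Dm t)` for the frames `F` of `(-a', s)` and `F'` of `(a', s')` -/
def twC (s a' s' : M2) : ℝ := Real.arsinh (-(ip s (a' * s')))

/-- directional derivative of the seam length -/
def dsd (a b c a' b' c' : ℝ) : ℝ :=
  deriv (fun s : ℝ => sd (a + s * a') (b + s * b') (c + s * c')) 0

variable (Γ : Subgroup SL(2, ℝ))

/-- unit vector of the leaf `p` for the representation `r` -/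
def aV (r : SL(2, ℝ) → SL(2, ℝ)) (p : Bd × Bd) : M2 := axis (r (gen Γ p))

/-- length of the leaf `p` -/
def xL (r : SL(2, ℝ) → SL(2, ℝ)) (p : Bd × Bd) : ℝ := len (r (gen Γ p))

/-- seam vector -/
def sV (r : SL(2, ℝ) → SL(2, ℝ)) (p q : Bd × Bd) : M2 := smV (aV Γ r p) (aV Γ r q)

/-- variation of the length of the seam `(p, q)` in a hexagon `p, q, s`, when the lengths of the
leaves vary by `x'` -/
def ds (r : SL(2, ℝ) → SL(2, ℝ)) (x' : Bd × Bd → ℝ) (p q s : Bd × Bd) : ℝ :=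
  dsd (xL Γ r p) (xL Γ r q) (xL Γ r s) (x' p) (x' q) (x' s)

/-- sum of the unit vectors of the leaves of class `k` of `S'` crossed on the way from `z`
to `z'` (oriented with `z` in front and `z'` behind) -/
def flux {K : Type} (S' : LeafSystem Γ) (cls : Bd × Bd → K) (r : SL(2, ℝ) → SL(2, ℝ)) (k : K)
    (z z' : ℍ) : M2 :=
  ∑ᶠ p ∈ {p : Bd × Bd | p ∈ S'.L ∧ FrontPt p z ∧ BehindPt p z' ∧ cls p = k}, aV Γ r p

/-- derivative at `0` of a curve of matrices, entry by entry -/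
def HasD (f : ℝ → M2) (f' : M2) : Prop := ∀ i j, HasDerivAt (fun s : ℝ => f s i j) (f' i j) 0

/-- `nu` is the velocity of a frame with first unit vector `a` and second unit vector `s`, which
move with the velocities `a'` and `s'` -/
def IsVel (a s a' s' nu : M2) : Prop :=
  nu.trace = 0 ∧ (1 / 2 : ℝ) • (nu * a - a * nu) = a' ∧ (1 / 2 : ℝ) • (nu * s - s * nu) = s'

/-- variation of the matrix of an arc, as a vector: the arc goes from `p` to `B`, with the
starting flag `(p, u)` -/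
def arcV {J : Type} (r : SL(2, ℝ) → SL(2, ℝ)) (z : PS J) (x' : J → ℝ) (p u B : Bd × Bd) :
    Arc J → M2
  | Arc.seam a b c => dsd (z.1 a) (z.1 b) (z.1 c) (x' a) (x' b) (x' c) • sV Γ r p u
  | Arc.wave a b c => dsd (z.1 a) (z.1 b) (z.1 c) (x' a) (x' b) (x' c) • sV Γ r p u +
      x' b • aV Γ r u + dsd (z.1 a) (z.1 b) (z.1 c) (x' a) (x' b) (x' c) • sV Γ r u B

/-! ### triples of leaves -/

/-- triples of leaves: hexagons with a distinguished long side -/
abbrev Tri : Type := (Bd × Bd) × (Bd × Bd) × (Bd × Bd)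

/-- translate of a triple -/
def gat (g : SL(2, ℝ)) (τ : Tri) : Tri := (ga g τ.1, ga g τ.2.1, ga g τ.2.2)

/-- rotation of a hexagon -/
def rotT (τ : Tri) : Tri := (τ.2.2, τ.1, τ.2.1)

/-- the hexagon on the other side of the seam between the first and the third leaf, seen from
the third leaf -/
def mir (τ : Tri) : Tri := (τ.2.2, ga (gen Γ τ.1) τ.2.1, τ.1)

/-- the next hexagon along the first leaf -/
def nxt (τ : Tri) : Tri := (τ.1, τ.2.2, ga (gen Γ τ.1) τ.2.1)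

variable {Γ}

/-- the triple is a hexagon -/
def LeafSystem.IsHex (S : LeafSystem Γ) (τ : Tri) : Prop := S.Hex τ.1 τ.2.1 τ.2.2

/-- contribution of a long side and the following seam of a hexagon -/
def sideT (r : SL(2, ℝ) → SL(2, ℝ)) (nu : Bd × Bd → Bd × Bd → M2) (x' : Bd × Bd → ℝ)
    (τ : Tri) : ℝ :=
  (x' τ.1 / 2) * ip ((1 / 2 : ℝ) • (nu τ.1 τ.2.1 + nu τ.1 τ.2.2)) (aV Γ r τ.1) +
    ds Γ r x' τ.1 τ.2.2 τ.2.1 *
      ip ((1 / 2 : ℝ) • (nu τ.1 τ.2.2 + nu τ.2.2 τ.1)) (sV Γ r τ.1 τ.2.2)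

/-- contribution of a hexagon -/
def hexT (r : SL(2, ℝ) → SL(2, ℝ)) (nu : Bd × Bd → Bd × Bd → M2) (x' : Bd × Bd → ℝ)
    (τ : Tri) : ℝ :=
  sideT (Γ := Γ) r nu x' τ + sideT (Γ := Γ) r nu x' (rotT τ) +
    sideT (Γ := Γ) r nu x' (rotT (rotT τ))

open Classical in
/-- indicator of the half plane behind `b` -/
def chi (b : Bd × Bd) (z : ℍ) : ℝ := if BehindPt b z then 1 else 0

open Classical in
/-- `1` if all three leaves of the triple have an endpoint behind `b`, `0` otherwise -/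
def chT (b : Bd × Bd) (τ : Tri) : ℝ :=
  if (Behind b τ.1.1 ∨ Behind b τ.1.2) ∧ (Behind b τ.2.1.1 ∨ Behind b τ.2.1.2) ∧
    (Behind b τ.2.2.1 ∨ Behind b τ.2.2.2) then 1 else 0

variable (Γ) in
/-- the translates of `l` -/
def orb (l : Bd × Bd) : Set (Bd × Bd) := {b | ∃ γ ∈ Γ, b = ga γ l}

/-! ### the context -/

/-- a representation, admissible for `S` and hyperbolic on the leaves of `S'`, and a class `k` of
leaves of `S'` -/
structure WCtx (Γ : Subgroup SL(2, ℝ)) (J K : Type) where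
  hΓ : IsClosedSurfaceGroup Γ
  X : Setup Γ J K
  ρ : SL(2, ℝ) → SL(2, ℝ)
  adm : X.S.AdmS ρ
  hyp : ∀ p ∈ X.S'.L, 2 < |trc (ρ (gen Γ p))|
  k : K
  z₀ : ℍ
  off : X.S'.OffPt z₀
  z : PS J
  coord : X.D.Coord ρ z

namespace WCtx

variable {J K : Type} (c : WCtx Γ J K)

/-- the closed geodesic of class `k` -/
def l : Bd × Bd := c.X.D'.P c.k

/-- its word -/
def w : Word J := c.X.w c.k

/-- its word data -/
def W : WordOf c.X.D (c.X.D'.P c.k) (c.X.w c.k) := c.X.W c.k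

/-- the class of a leaf of `S` -/
def cls (p : Bd × Bd) : J := c.X.D.cls p

/-- unit vector of a leaf -/
def a (p : Bd × Bd) : M2 := aV Γ c.ρ p

/-- seam vector -/
def s (p q : Bd × Bd) : M2 := sV Γ c.ρ p q

/-- flux of the class `k` -/
def fx (z z' : ℍ) : M2 := flux Γ c.X.S' c.X.D'.cls c.ρ c.k z z'

/-- variation of the arc `i` -/
def mu (x' : J → ℝ) (i : ℕ) (A : Arc J) : M2 :=
  arcV Γ c.ρ c.z x' (c.W.A i) (c.W.U i) (sw (c.W.A ((i : ℤ) + 1))) A

/-- the triple lies in the plaque between the crossings `i` and `i + 1` -/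
def InPl (i : ℤ) (τ : Tri) : Prop :=
  c.X.S.IsHex τ ∧ (τ.1 = c.W.A i ∨ c.X.S.CoPl (c.W.A i) τ.1)

/-- the plaque of the triple is crossed by `b` -/
def Crosses (τ : Tri) (b : Bd × Bd) : Prop :=
  ∃ A ∈ c.X.S.L, (A = τ.1 ∨ c.X.S.CoPl A τ.1) ∧ Behind A b.2 ∧ Behind (sw A) b.1

/-- velocities of the seam frames (for the base point `z₀`) and of the lengths -/
structure Vel where
  nu : Bd × Bd → Bd × Bd → M2
  xd : Bd × Bd → ℝ
  xd_eq : ∀ p ∈ c.X.S.L, ∀ z, c.X.S'.OffPt z → xd p = -ip (c.fx z (gen Γ p • z)) (c.a p)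
  xd_ga : ∀ γ ∈ Γ, ∀ p ∈ c.X.S.L, xd (ga γ p) = xd p
  xd_sw : ∀ p ∈ c.X.S.L, xd (sw p) = xd p
  nu_tr : ∀ p q x, c.X.S.Hex p q x → (nu p q).trace = 0
  nu_ga : ∀ γ ∈ Γ, ∀ p q, c.X.S.Seam p q →
    nu (ga γ p) (ga γ q) = cj (c.ρ γ) (nu p q) - c.fx c.z₀ (γ • c.z₀)
  nu_rot : ∀ p q x, c.X.S.Hex p q x → nu p x - nu p q = (xd p / 2) • c.a p
  nu_seam : ∀ p q x, c.X.S.Hex p q x → nu q p - nu p q = ds Γ c.ρ xd p q x • c.s p q

/-- third leaves of the reference hexagons and base points of the long sides of hexagons -/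
structure Base where
  U' : J → Bd × Bd
  V' : J → Bd × Bd
  hexU : ∀ j, c.X.S.Hex (c.X.D.P j) (c.X.D.U j) (U' j)
  hexV : ∀ j, c.X.S.Hex (sw (c.X.D.P j)) (c.X.D.V j) (V' j)
  y : Tri → ℍ
  y_ga : ∀ γ ∈ Γ, ∀ τ, c.X.S.IsHex τ → y (gat γ τ) = γ • y τ
  y_on : ∀ τ, c.X.S.IsHex τ → side (y τ) τ.1.1 τ.1.2 = 0
  y_off : ∀ τ, c.X.S.IsHex τ → c.X.S'.OffPt (y τ)
  y_one : ∀ j, y (c.X.D.P j, U' j, ga (gen Γ (c.X.D.P j)) (c.X.D.U j)) =
    y (c.X.D.P j, c.X.D.U j, U' j)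
  y_two : ∀ j, y (sw (c.X.D.P j), c.X.D.V j, V' j) = y (c.X.D.P j, c.X.D.U j, U' j)
  y_three : ∀ j, y (sw (c.X.D.P j), V' j, ga (gen Γ (sw (c.X.D.P j))) (c.X.D.V j)) =
    y (c.X.D.P j, c.X.D.U j, U' j)

variable {c}

/-- the four reference triples of each class -/
def Base.t0 (B : c.Base) (x : J × Fin 4) : Tri :=
  ![(c.X.D.P x.1, c.X.D.U x.1, B.U' x.1),
    (c.X.D.P x.1, B.U' x.1, ga (gen Γ (c.X.D.P x.1)) (c.X.D.U x.1)),
    (sw (c.X.D.P x.1), c.X.D.V x.1, B.V' x.1),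
    (sw (c.X.D.P x.1), B.V' x.1, ga (gen Γ (sw (c.X.D.P x.1))) (c.X.D.V x.1))] x.2

/-- contribution of the pair of a triple and a translate of `l` -/
def Base.Psi (B : c.Base) (x' : J → ℝ) (τ : Tri) (b : Bd × Bd) : ℝ :=
  (x' (c.cls τ.1) / 2) * (chT b τ - chi b (B.y τ)) * ip (c.a b) (c.a τ.1) +
    (1 / 2) * ds Γ c.ρ (fun p => x' (c.cls p)) τ.1 τ.2.2 τ.2.1 *
      (chT b τ - chT b (mir Γ τ)) * ip (c.a b) (c.s τ.1 τ.2.2)

/-- contributions of the long sides of the reference triples -/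
def Base.sideS (B : c.Base) (V : c.Vel) (x' : J → ℝ) (τ : Tri) : ℝ :=
  (x' (c.cls τ.1) / 2) *
    ip ((1 / 2 : ℝ) • (V.nu τ.1 τ.2.1 + V.nu τ.1 τ.2.2) + c.fx c.z₀ (B.y τ)) (c.a τ.1)

/-- signed number of triples at the leaf `W.A i`, outgoing side -/
def Base.al (B : c.Base) (i : ℤ) : ℝ :=
  ∑ᶠ τ ∈ {τ : Tri | c.X.S.IsHex τ ∧ τ.1 = c.W.A i}, (chT c.l τ - chi c.l (B.y τ))

/-- signed number of triples at the leaf `W.A i`, incoming side -/
def Base.be (B : c.Base) (i : ℤ) : ℝ :=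
  -∑ᶠ τ ∈ {τ : Tri | c.X.S.IsHex τ ∧ τ.1 = sw (c.W.A i)}, (chT c.l τ - chi c.l (B.y τ))

end WCtx

end

end AdSBend
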