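import Pool.Agent.helper73.AD.GW0

/-!
Statements of the modules of the Wolpert part of the project ad: WD_stmt. Proofs: AW_NOTES.md.
-/

open scoped MatrixGroups LinearAlgebra.Projectivization BigOperators
open Matrix UpperHalfPlane
open Pool.Agent.helper73.AD (PS Word Arc sg Cone)

namespace AdSBend

noncomputable section

open LeafSystem

/-! ### A: algebra -/

/-- WA0: conjugation and scalar product -/
def WA0_stmt : Prop :=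
  (∀ (g : SL(2, ℝ)) (X Y : M2), ip (cj g X) (cj g Y) = ip X Y) ∧
  (∀ (g h : SL(2, ℝ)) (X : M2), cj (g * h) X = cj g (cj h X)) ∧
  (∀ (g : SL(2, ℝ)) (X : M2), cj (-g) X = cj g X) ∧ (∀ X : M2, cj 1 X = X) ∧
  (∀ (g : SL(2, ℝ)) (X Y : M2), cj g (X + Y) = cj g X + cj g Y ∧ cj g (X * Y) = cj g X * cj g Y ∧
    cj g (X - Y) = cj g X - cj g Y) ∧
  (∀ (g : SL(2, ℝ)) (t : ℝ) (X : M2), cj g (t • X) = t • cj g X) ∧
  (∀ (g : SL(2, ℝ)) (X : M2), (cj g X).trace = X.trace) ∧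
  (∀ (g : SL(2, ℝ)) (a x : M2), smV (cj g a) (cj g x) = cj g (smV a x)) ∧
  (∀ (g h : SL(2, ℝ)) (X : M2), PEq g h → cj g X = cj h X)

/-- WA1: the unit vectors of leaves and seams of an admissible representation -/
def WA1_stmt : Prop := ∀ (Γ : Subgroup SL(2, ℝ)), IsClosedSurfaceGroup Γ → ∀ S : LeafSystem Γ,
  ∀ r : SL(2, ℝ) → SL(2, ℝ), S.AdmS r →
  (∀ p ∈ S.L, (aV Γ r p).trace = 0 ∧ aV Γ r p * aV Γ r p = 1 ∧ aV Γ r (sw p) = -aV Γ r p ∧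
    0 < xL Γ r p ∧ xL Γ r (sw p) = xL Γ r p ∧
    ∀ γ ∈ Γ, aV Γ r (ga γ p) = cj (r γ) (aV Γ r p) ∧ xL Γ r (ga γ p) = xL Γ r p) ∧
  (∀ p q x, S.Hex p q x →
    ip (aV Γ r p) (aV Γ r q) = -Real.cosh (sd (xL Γ r p) (xL Γ r q) (xL Γ r x)) ∧
    0 < sd (xL Γ r p) (xL Γ r q) (xL Γ r x) ∧
    (sV Γ r p q).trace = 0 ∧ sV Γ r p q * sV Γ r p q = 1 ∧ sV Γ r q p = -sV Γ r p q ∧
    aV Γ r p * sV Γ r p q = -(sV Γ r p q * aV Γ r p) ∧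
    aV Γ r q * sV Γ r p q = -(sV Γ r p q * aV Γ r q) ∧
    aV Γ r q = -(Real.cosh (sd (xL Γ r p) (xL Γ r q) (xL Γ r x)) • aV Γ r p) +
      Real.sinh (sd (xL Γ r p) (xL Γ r q) (xL Γ r x)) • (aV Γ r p * sV Γ r p q) ∧
    sV Γ r p x = Real.cosh (xL Γ r p / 2) • sV Γ r p q +
      Real.sinh (xL Γ r p / 2) • (aV Γ r p * sV Γ r p q) ∧
    (pos (r (gen Γ p))).1 = sV Γ r p x * sV Γ r p q ∧
    (∀ γ ∈ Γ, sV Γ r (ga γ p) (ga γ q) = cj (r γ) (sV Γ r p q)) ∧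
    (∀ F, IsSeamFrame (r (gen Γ p)) (r (gen Γ q)) F → aV Γ r p = cj F hM ∧
      sV Γ r p q = cj F eM))

/-- WA2: the hexagon is closed: the sum of the variations of its sides vanishes -/
def WA2_stmt : Prop := ∀ (Γ : Subgroup SL(2, ℝ)), IsClosedSurfaceGroup Γ → ∀ S : LeafSystem Γ,
  ∀ r : SL(2, ℝ) → SL(2, ℝ), S.AdmS r → ∀ p q x, S.Hex p q x → ∀ x' : Bd × Bd → ℝ,
    (x' p / 2) • aV Γ r p + ds Γ r x' p x q • sV Γ r p x + (x' x / 2) • aV Γ r x +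
      ds Γ r x' x q p • sV Γ r x q + (x' q / 2) • aV Γ r q + ds Γ r x' q p x • sV Γ r q p = 0

/-- WA3: translation invariance and mirror antisymmetry of the contribution of a hexagon -/
def WA3_stmt : Prop := ∀ (Γ : Subgroup SL(2, ℝ)), IsClosedSurfaceGroup Γ → ∀ S : LeafSystem Γ,
  ∀ r : SL(2, ℝ) → SL(2, ℝ), S.AdmS r →
  ∀ (nu : Bd × Bd → Bd × Bd → M2) (xd x' : Bd × Bd → ℝ),
    (∀ γ ∈ Γ, ∀ p ∈ S.L, xd (ga γ p) = xd p) → (∀ γ ∈ Γ, ∀ p ∈ S.L, x' (ga γ p) = x' p) →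
    (∀ p q x, S.Hex p q x → nu p x - nu p q = (xd p / 2) • aV Γ r p) →
    (∀ p q x, S.Hex p q x → nu q p - nu p q = ds Γ r xd p q x • sV Γ r p q) →
    ∀ τ, S.IsHex τ →
      hexT (Γ := Γ) r nu x' (mir Γ τ) = -hexT (Γ := Γ) r nu x' τ ∧
      (∀ v : M2, hexT (Γ := Γ) r (fun p q => nu p q + v) x' τ = hexT (Γ := Γ) r nu x' τ) ∧
      hexT (Γ := Γ) r nu x' (rotT τ) = hexT (Γ := Γ) r nu x' τ

/-- WA4: symmetry of the seam lengths -/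
def WA4_stmt : Prop :=
  (∀ a b c : ℝ, sd a b c = sd b a c) ∧
  (∀ a b c a' b' c' : ℝ, dsd a b c a' b' c' = dsd b a c b' a' c') ∧
  (∀ a b c a' b' c' : ℝ, 0 < a → 0 < b → 0 < c →
    DifferentiableAt ℝ (fun s : ℝ => sd (a + s * a') (b + s * b') (c + s * c')) 0 ∧
    Real.sinh (sd a b c) * Real.sinh (a / 2) * Real.sinh (b / 2) * dsd a b c a' b' c' =
      (c' / 2) * Real.sinh (c / 2) +
      (a' / 2) * (Real.sinh (a / 2) * Real.cosh (b / 2) -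
        Real.cosh (sd a b c) * Real.cosh (a / 2) * Real.sinh (b / 2)) +
      (b' / 2) * (Real.cosh (a / 2) * Real.sinh (b / 2) -
        Real.cosh (sd a b c) * Real.sinh (a / 2) * Real.cosh (b / 2)))

/-! ### R: representatives -/

/-- WR1: two systems of representatives give the same sum -/
def WR1_stmt : Prop := ∀ (Z : Type) (R : Z → Z → Prop) (F : Z → ℝ) (S₁ S₂ : Set Z),
  Equivalence R → (∀ z z', R z z' → F z = F z') →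
  (∀ z, F z ≠ 0 → ∃! w, w ∈ S₁ ∧ R z w) → (∀ z, F z ≠ 0 → ∃! w, w ∈ S₂ ∧ R z w) →
  ∑ᶠ z ∈ S₁, F z = ∑ᶠ z ∈ S₂, F z

/-- WR2: the reference triples are a system of representatives -/
def WR2_stmt : Prop := ∀ (Γ : Subgroup SL(2, ℝ)) (J K : Type) [Fintype J] [DecidableEq J]
  (c : WCtx Γ J K) (B : c.Base),
  (∀ x, c.X.S.IsHex (B.t0 x)) ∧
  (∀ τ, c.X.S.IsHex τ → ∃! x : J × Fin 4, ∃ γ ∈ Γ, τ = gat γ (B.t0 x))

/-- WR2b: elementary properties of triples -/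
def WR2b_stmt : Prop := ∀ (Γ : Subgroup SL(2, ℝ)), IsClosedSurfaceGroup Γ →
  ∀ S : LeafSystem Γ, S.IsPants →
  (∀ γ ∈ Γ, ∀ τ, S.IsHex τ → S.IsHex (gat γ τ)) ∧
  (∀ γ ∈ Γ, ∀ τ, S.IsHex τ → gat γ τ = τ → PEq γ 1) ∧
  (∀ τ, S.IsHex τ → S.IsHex (rotT τ) ∧ S.IsHex (mir Γ τ) ∧ S.IsHex (nxt Γ τ) ∧
    mir Γ (mir Γ τ) = τ ∧ nxt Γ (nxt Γ τ) = gat (gen Γ τ.1) τ ∧
    ga (gen Γ τ.1) τ.1 = τ.1) ∧
  (∀ γ ∈ Γ, ∀ τ, S.IsHex τ → rotT (gat γ τ) = gat γ (rotT τ) ∧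
    mir Γ (gat γ τ) = gat γ (mir Γ τ) ∧ nxt Γ (gat γ τ) = gat γ (nxt Γ τ)) ∧
  (∀ τ, S.IsHex τ → τ.1 ∈ S.L ∧ τ.2.1 ∈ S.L ∧ τ.2.2 ∈ S.L ∧ S.CoPl τ.1 τ.2.1 ∧
    S.CoPl τ.1 τ.2.2 ∧ S.CoPl τ.2.1 τ.2.2 ∧ S.Seam τ.1 τ.2.1 ∧ S.Seam τ.1 τ.2.2) ∧
  (∀ p ∈ S.L, ∀ γ ∈ Γ, ga γ p ≠ sw p)

/-- WR3: sums over the reference triples of invariant functions -/
def WR3_stmt : Prop := ∀ (Γ : Subgroup SL(2, ℝ)) (J K : Type) [Fintype J] [DecidableEq J]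
  (c : WCtx Γ J K) (B : c.Base) (F : Tri → ℝ),
  (∀ γ ∈ Γ, ∀ τ, c.X.S.IsHex τ → F (gat γ τ) = F τ) →
  ∑ x, F (rotT (B.t0 x)) = ∑ x, F (B.t0 x) ∧ ∑ x, F (mir Γ (B.t0 x)) = ∑ x, F (B.t0 x)

/-- WR4: unfolding: sums over pairs of a reference triple and a translate of `l`, and over the
triples in the plaques crossed by `l` -/
def WR4_stmt : Prop := ∀ (Γ : Subgroup SL(2, ℝ)) (J K : Type) [Fintype J] [DecidableEq J]
  (c : WCtx Γ J K) (B : c.Base) (F : Tri → Bd × Bd → ℝ),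
  (∀ γ ∈ Γ, ∀ τ b, c.X.S.IsHex τ → b ∈ orb Γ c.l → F (gat γ τ) (ga γ b) = F τ b) →
  (∀ τ, c.X.S.IsHex τ → {b | b ∈ orb Γ c.l ∧ F τ b ≠ 0}.Finite) →
  (∀ τ b, c.X.S.IsHex τ → b ∈ orb Γ c.l → F τ b ≠ 0 → c.Crosses τ b) →
  ∑ x, ∑ᶠ b ∈ orb Γ c.l, F (B.t0 x) b =
    ∑ i : Fin (c.w.n + 1), ∑ᶠ τ ∈ {τ : Tri | c.InPl (i.val : ℤ) τ}, F τ c.l

/-! ### Y, F: base points, fluxes, finiteness -/

/-- WY1: base points exist -/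
def WY1_stmt : Prop := ∀ (Γ : Subgroup SL(2, ℝ)) (J K : Type) [Fintype J] [DecidableEq J]
  (c : WCtx Γ J K), Nonempty c.Base

/-- WF0: invariances of the indicators and unit vectors of the leaves of `S'` -/
def WF0_stmt : Prop :=
  (∀ (g : SL(2, ℝ)) (b : Bd × Bd) (z : ℍ), chi (ga g b) (g • z) = chi b z) ∧
  (∀ (g : SL(2, ℝ)) (b : Bd × Bd) (τ : Tri), chT (ga g b) (gat g τ) = chT b τ) ∧
  (∀ (b : Bd × Bd) (τ : Tri), chT b (rotT τ) = chT b τ) ∧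
  (∀ (Γ : Subgroup SL(2, ℝ)) (J K : Type) (c : WCtx Γ J K), ∀ b ∈ c.X.S'.L,
    (c.a b).trace = 0 ∧ c.a (sw b) = -c.a b ∧ ∀ γ ∈ Γ, c.a (ga γ b) = cj (c.ρ γ) (c.a b))

/-- WF1: the flux as a sum over the translates of `l` -/
def WF1_stmt : Prop := ∀ (Γ : Subgroup SL(2, ℝ)) (J K : Type) (c : WCtx Γ J K),
  (∀ b ∈ orb Γ c.l, b ∈ c.X.S'.L ∧ sw b ∉ orb Γ c.l) ∧
  (∀ z z', c.X.S'.OffPt z → c.X.S'.OffPt z' →
    {b | b ∈ orb Γ c.l ∧ chi b z' ≠ chi b z}.Finite ∧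
    c.fx z z' = ∑ᶠ b ∈ orb Γ c.l, (chi b z' - chi b z) • c.a b ∧ (c.fx z z').trace = 0) ∧
  (∀ z z' z'', c.X.S'.OffPt z → c.X.S'.OffPt z' → c.X.S'.OffPt z'' →
    c.fx z z'' = c.fx z z' + c.fx z' z'') ∧
  (∀ γ ∈ Γ, ∀ z z', c.X.S'.OffPt z → c.X.S'.OffPt z' → c.X.S'.OffPt (γ • z) ∧
    c.fx (γ • z) (γ • z') = cj (c.ρ γ) (c.fx z z'))

/-- WF2: finiteness for the virtual base points -/
def WF2_stmt : Prop := ∀ (Γ : Subgroup SL(2, ℝ)) (J K : Type) (c : WCtx Γ J K),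
  ∀ τ, c.X.S.IsHex τ → ∀ z, c.X.S'.OffPt z → {b | b ∈ orb Γ c.l ∧ chT b τ ≠ chi b z}.Finite

/-- WF3: a plaque that is not crossed by `b` lies on one side of it -/
def WF3_stmt : Prop := ∀ (Γ : Subgroup SL(2, ℝ)) (J K : Type) (c : WCtx Γ J K),
  ∀ τ, c.X.S.IsHex τ → ∀ b ∈ orb Γ c.l, ¬ c.Crosses τ b →
    ∀ v, (v = τ.1 ∨ c.X.S.CoPl τ.1 v) →
      (Behind b v.1 ↔ Behind b τ.1.1) ∧ (Behind b v.2 ↔ Behind b τ.1.1)

/-- WF4: the function `Psi` satisfies the hypotheses of WR4 -/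
def WF4_stmt : Prop := ∀ (Γ : Subgroup SL(2, ℝ)) (J K : Type) (c : WCtx Γ J K) (B : c.Base)
  (x' : J → ℝ),
  (∀ γ ∈ Γ, ∀ τ b, c.X.S.IsHex τ → b ∈ orb Γ c.l → B.Psi x' (gat γ τ) (ga γ b) = B.Psi x' τ b) ∧
  (∀ τ, c.X.S.IsHex τ → {b | b ∈ orb Γ c.l ∧ B.Psi x' τ b ≠ 0}.Finite) ∧
  (∀ τ b, c.X.S.IsHex τ → b ∈ orb Γ c.l → B.Psi x' τ b ≠ 0 → c.Crosses τ b)

/-! ### S: Stokes -/

/-- WS1: the sum over all hexagons vanishes -/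
def WS1_stmt : Prop := ∀ (Γ : Subgroup SL(2, ℝ)) (J K : Type) [Fintype J] [DecidableEq J]
  (c : WCtx Γ J K) (B : c.Base) (V : c.Vel) (x' : J → ℝ),
  (∀ (v : M2) (τ : Tri), c.X.S.IsHex τ →
    hexT (Γ := Γ) c.ρ (fun p q => V.nu p q + v) (fun p => x' (c.cls p)) τ =
      hexT (Γ := Γ) c.ρ V.nu (fun p => x' (c.cls p)) τ) ∧
  ∑ x, hexT (Γ := Γ) c.ρ V.nu (fun p => x' (c.cls p)) (B.t0 x) = 0

/-- WS2: Stokes with the virtual base points -/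
def WS2_stmt : Prop := ∀ (Γ : Subgroup SL(2, ℝ)) (J K : Type) [Fintype J] [DecidableEq J]
  (c : WCtx Γ J K) (B : c.Base) (V : c.Vel) (x' : J → ℝ),
  ∑ x, B.sideS V x' (B.t0 x) + ∑ x, ∑ᶠ b ∈ orb Γ c.l, B.Psi x' (B.t0 x) b = 0

/-- WS3: the contributions of the long sides -/
def WS3_stmt : Prop := ∀ (Γ : Subgroup SL(2, ℝ)) (J K : Type) [Fintype J] [DecidableEq J]
  (c : WCtx Γ J K) (B : c.Base) (V : c.Vel) (x' : J → ℝ),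
  ∑ x, B.sideS V x' (B.t0 x) =
    ∑ j, x' j * (ip (V.nu (c.X.D.P j) (c.X.D.U j) - V.nu (sw (c.X.D.P j)) (c.X.D.V j))
      (c.a (c.X.D.P j)) + V.xd (c.X.D.P j))

/-! ### E: evaluation on the plaques crossed by `l` -/

/-- the leaf `v` of the plaque `i` is on the side of `(W.A i).1` of `l`, or crossed by `l` -/
def WCtx.One {Γ : Subgroup SL(2, ℝ)} {J K : Type} (c : WCtx Γ J K) (i : ℤ) (v : Bd × Bd) : Prop :=
  v = c.W.A i ∨ v = sw (c.W.A (i + 1)) ∨ Cyc (c.W.A i).1 (sw (c.W.A (i + 1))).1 v.1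

/-- the leaf `v` of the plaque `i` is on the other side, or crossed by `l` -/
def WCtx.Zero {Γ : Subgroup SL(2, ℝ)} {J K : Type} (c : WCtx Γ J K) (i : ℤ) (v : Bd × Bd) : Prop :=
  v = c.W.A i ∨ v = sw (c.W.A (i + 1)) ∨ Cyc (sw (c.W.A (i + 1))).1 (c.W.A i).1 v.1

/-- WE1: positions of the leaves of the plaque `i` with respect to `l` -/
def WE1_stmt : Prop := ∀ (Γ : Subgroup SL(2, ℝ)) (J K : Type) (c : WCtx Γ J K) (i : ℤ)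
  (v : Bd × Bd), (v = c.W.A i ∨ c.X.S.CoPl (c.W.A i) v) →
  ((Behind c.l v.1 ∨ Behind c.l v.2) ↔ c.One i v) ∧ (c.One i v ∨ c.Zero i v) ∧
  (c.One i v → c.Zero i v → v = c.W.A i ∨ v = sw (c.W.A (i + 1))) ∧
  c.W.A i ≠ sw (c.W.A (i + 1)) ∧
  (v ≠ c.W.A i → v ≠ sw (c.W.A (i + 1)) → (Behind c.l v.1 ↔ Behind c.l v.2) ∧
    ∀ z, side z v.1 v.2 = 0 → (BehindPt c.l z ↔ c.One i v))

/-- WE2: hexagons in the plaque `i`: seam type or wave type -/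
def WE2_stmt : Prop := ∀ (Γ : Subgroup SL(2, ℝ)) (J K : Type) (c : WCtx Γ J K) (i : ℤ),
  ((∃ x, (c.X.S.Hex (c.W.A i) (sw (c.W.A (i + 1))) x ∨
      c.X.S.Hex (sw (c.W.A (i + 1))) (c.W.A i) x) ∧
      c.W.U i = sw (c.W.A (i + 1)) ∧ c.W.V (i + 1) = c.W.A i) ∧
    ∀ τ, c.InPl i τ → (c.One i τ.1 ∧ c.One i τ.2.1 ∧ c.One i τ.2.2) ∨
      (c.Zero i τ.1 ∧ c.Zero i τ.2.1 ∧ c.Zero i τ.2.2)) ∨
  (¬ c.X.S.Seam (c.W.A i) (sw (c.W.A (i + 1))) ∧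
    ∃ x y, c.X.S.Hex (c.W.A i) x y ∧ sw (c.W.A (i + 1)) = ga (gen Γ y) (c.W.A i) ∧
      c.X.S.Hex (sw (c.W.A (i + 1))) y x ∧ c.W.U i = y ∧ c.W.V (i + 1) = y ∧
      c.One i y ∧ ¬ c.Zero i y ∧ c.Zero i x ∧ ¬ c.One i x ∧
      ∀ τ, c.InPl i τ → (c.One i τ.1 ∧ c.One i τ.2.1 ∧ c.One i τ.2.2) ∨
        (c.Zero i τ.1 ∧ c.Zero i τ.2.1 ∧ c.Zero i τ.2.2) ∨
        τ = (c.W.A i, x, y) ∨ τ = (y, c.W.A i, x) ∨ τ = (x, y, c.W.A i) ∨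
        τ = (sw (c.W.A (i + 1)), y, x) ∨ τ = (x, sw (c.W.A (i + 1)), y) ∨
        τ = (y, x, sw (c.W.A (i + 1))))

/-- WE3: the seam terms and the sides not crossed by `l` give the variation of the arc -/
def WE3_stmt : Prop := ∀ (Γ : Subgroup SL(2, ℝ)) (J K : Type) (c : WCtx Γ J K) (B : c.Base)
  (x' : J → ℝ) (i : Fin (c.w.n + 1)),
  {τ : Tri | c.InPl (i.val : ℤ) τ ∧ chT c.l τ ≠ chT c.l (mir Γ τ)}.Finite ∧
  {τ : Tri | c.InPl (i.val : ℤ) τ ∧ τ.1 ≠ c.W.A (i.val : ℤ) ∧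
    τ.1 ≠ sw (c.W.A ((i.val : ℤ) + 1)) ∧ chT c.l τ ≠ chi c.l (B.y τ)}.Finite ∧
  ∑ᶠ τ ∈ {τ : Tri | c.InPl (i.val : ℤ) τ},
      (1 / 2) * ds Γ c.ρ (fun p => x' (c.cls p)) τ.1 τ.2.2 τ.2.1 *
        (chT c.l τ - chT c.l (mir Γ τ)) * ip (c.a c.l) (c.s τ.1 τ.2.2) +
    ∑ᶠ τ ∈ {τ : Tri | c.InPl (i.val : ℤ) τ ∧ τ.1 ≠ c.W.A (i.val : ℤ) ∧
      τ.1 ≠ sw (c.W.A ((i.val : ℤ) + 1))},
      (x' (c.cls τ.1) / 2) * (chT c.l τ - chi c.l (B.y τ)) * ip (c.a c.l) (c.a τ.1) =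
    -ip (c.a c.l) (c.mu x' i.val (c.w.A i))

/-- WE4: finiteness of the long sides on the leaves crossed by `l` -/
def WE4_stmt : Prop := ∀ (Γ : Subgroup SL(2, ℝ)) (J K : Type) (c : WCtx Γ J K) (B : c.Base)
  (i : ℤ),
  {τ : Tri | c.X.S.IsHex τ ∧ τ.1 = c.W.A i ∧ chT c.l τ ≠ chi c.l (B.y τ)}.Finite ∧
  {τ : Tri | c.X.S.IsHex τ ∧ τ.1 = sw (c.W.A i) ∧ chT c.l τ ≠ chi c.l (B.y τ)}.Finite ∧
  B.be (i + c.w.n + 1) = B.be i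

/-- WE5: evaluation of the sum over the plaque `i` -/
def WE5_stmt : Prop := ∀ (Γ : Subgroup SL(2, ℝ)) (J K : Type) (c : WCtx Γ J K) (B : c.Base)
  (x' : J → ℝ) (i : Fin (c.w.n + 1)),
  ∑ᶠ τ ∈ {τ : Tri | c.InPl (i.val : ℤ) τ}, B.Psi x' τ c.l =
    -ip (c.a c.l) (c.mu x' i.val (c.w.A i)) +
    B.al (i.val : ℤ) * (x' (c.cls (c.W.A (i.val : ℤ))) / 2) *
      ip (c.a c.l) (c.a (c.W.A (i.val : ℤ))) +
    B.be ((i.val : ℤ) + 1) * (x' (c.cls (c.W.A ((i.val : ℤ) + 1))) / 2) *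
      ip (c.a c.l) (c.a (c.W.A ((i.val : ℤ) + 1)))

/-! ### C: counting along a leaf crossed by `l` -/

/-- the hexagons at the first leaf of `τ`, numbered by the integers -/
def fanT (Γ : Subgroup SL(2, ℝ)) (τ : Tri) (m : ℤ) : Tri :=
  gat (gen Γ τ.1 ^ (m / 2)) (if m % 2 = 0 then τ else nxt Γ τ)

/-- WC1: the hexagons at a leaf -/
def WC1_stmt : Prop := ∀ (Γ : Subgroup SL(2, ℝ)), IsClosedSurfaceGroup Γ →
  ∀ S : LeafSystem Γ, S.IsPants → ∀ τ, S.IsHex τ →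
  (∀ m, S.IsHex (fanT Γ τ m) ∧ (fanT Γ τ m).1 = τ.1 ∧ fanT Γ τ (m + 1) = nxt Γ (fanT Γ τ m) ∧
    (fanT Γ τ (m + 1)).2.1 = (fanT Γ τ m).2.2) ∧ fanT Γ τ 0 = τ ∧
  (∀ τ', S.IsHex τ' → τ'.1 = τ.1 → ∃! m, τ' = fanT Γ τ m) ∧
  (∀ m m', m < m' → Cyc τ.1.1 (fanT Γ τ m).2.1.1 (fanT Γ τ m').2.1.1) ∧
  (∀ u, S.Seam τ.1 u → ∃! m, u = (fanT Γ τ m).2.1)

/-- WC2: the virtual base point of the hexagons at a leaf crossed by `l` -/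
def WC2_stmt : Prop := ∀ (Γ : Subgroup SL(2, ℝ)) (J K : Type) (c : WCtx Γ J K) (i : ℤ) (τ : Tri),
  c.X.S.IsHex τ →
  (τ.1 = c.W.A i → chT c.l τ =
    open Classical in if τ.2.1 = c.W.U i ∨ Cyc (c.W.A i).1 (c.W.U i).1 τ.2.1.1 then 1 else 0) ∧
  (τ.1 = sw (c.W.A i) → chT c.l τ =
    open Classical in if Cyc (sw (c.W.A i)).1 τ.2.1.1 (c.W.V i).1 then 1 else 0)

/-- WC3: the translates of a point of a leaf crossed by `l` -/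
def WC3_stmt : Prop := ∀ (Γ : Subgroup SL(2, ℝ)) (J K : Type) (c : WCtx Γ J K) (i : ℤ) (z : ℍ),
  side z (c.W.A i).1 (c.W.A i).2 = 0 → ∃ k : ℤ, ∀ m : ℤ,
    (BehindPt c.l ((gen Γ (c.W.A i)) ^ m • z) ↔ k ≤ m) ∧
    (BehindPt c.l ((gen Γ (sw (c.W.A i))) ^ m • z) ↔ m ≤ -k)

/-- WC4: the shift of a crossing in terms of the positions of the flags -/
def WC4_stmt : Prop := ∀ (Γ : Subgroup SL(2, ℝ)) (J K : Type) (c : WCtx Γ J K) (B : c.Base)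
  (i : Fin (c.w.n + 1)), ∃ τ τ' : Tri, ∃ m m' : ℤ,
    c.X.S.IsHex τ ∧ c.X.S.IsHex τ' ∧ τ.1 = c.W.A (i.val : ℤ) ∧ τ'.1 = sw (c.W.A (i.val : ℤ)) ∧
    B.y (nxt Γ τ) = B.y τ ∧ B.y τ' = B.y τ ∧ B.y (nxt Γ τ') = B.y τ ∧
    (fanT Γ τ m).2.1 = c.W.U (i.val : ℤ) ∧ (fanT Γ τ' m').2.1 = c.W.V (i.val : ℤ) ∧
    c.w.c i = ((m : ℝ) + (m' : ℝ)) / 2

/-- WC5: the counting formula -/
def WC5_stmt : Prop := ∀ (Γ : Subgroup SL(2, ℝ)) (J K : Type) (c : WCtx Γ J K) (B : c.Base)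
  (i : Fin (c.w.n + 1)), B.al (i.val : ℤ) + B.be (i.val : ℤ) = 2 - 2 * c.w.c i

/-! ### Q, P: the two halves -/

/-- WQ1: variation of the lengths of the leaves of `S` -/
def WQ1_stmt : Prop := ∀ (Γ : Subgroup SL(2, ℝ)) (J K : Type) [Fintype J] [DecidableEq J]
  (c : WCtx Γ J K) (V : c.Vel) (j : J),
  V.xd (c.X.D.P j) = -∑ i : Fin (c.w.n + 1),
    if c.w.j i = j then ip (c.a c.l) (c.a (c.W.A (i.val : ℤ))) else 0

/-- WP1: variation of the twist parameters of `S` -/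
def WP1_stmt : Prop := ∀ (Γ : Subgroup SL(2, ℝ)) (J K : Type) [Fintype J] [DecidableEq J]
  (c : WCtx Γ J K) (V : c.Vel) (x' : J → ℝ),
  ∑ j, x' j * ip (V.nu (c.X.D.P j) (c.X.D.U j) - V.nu (sw (c.X.D.P j)) (c.X.D.V j))
      (c.a (c.X.D.P j)) =
    ∑ i : Fin (c.w.n + 1),
      (c.w.c i * x' (c.w.j i) * ip (c.a c.l) (c.a (c.W.A (i.val : ℤ))) +
        ip (c.a c.l) (c.mu x' i.val (c.w.A i)))

/-! ### H: derivative of the length function -/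

/-- logarithmic derivative of the matrix of an arc -/
def arcD {J : Type} : Arc J → (J → ℝ) → (J → ℝ) → M2
  | Arc.seam a b c, q, x' => dsd (q a) (q b) (q c) (x' a) (x' b) (x' c) • eM
  | Arc.wave a b c, q, x' => dsd (q a) (q b) (q c) (x' a) (x' b) (x' c) • eM -
      x' b • cj (Em (sd (q a) (q b) (q c))) hM -
      dsd (q a) (q b) (q c) (x' a) (x' b) (x' c) •
        cj (Em (sd (q a) (q b) (q c)) * Dm (-q b)) eM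

/-- WH1: derivative of the matrices -/
def WH1_stmt : Prop :=
  (∀ (J : Type) (A : Arc J) (q x' : J → ℝ), (∀ j, 0 < q j) →
    HasD (fun s : ℝ => (arcM A (q + s • x')).1) ((1 / 2 : ℝ) • (arcD A q x' * (arcM A q).1))) ∧
  (∀ t t' : ℝ, HasD (fun s : ℝ => (Dm (t + s * t')).1) ((t' / 2) • (hM * (Dm t).1)))

/-- WH2: the variation of an arc in the frame at its start -/
def WH2_stmt : Prop := ∀ (Γ : Subgroup SL(2, ℝ)) (J K : Type) (c : WCtx Γ J K) (x' : J → ℝ)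
  (i : Fin (c.w.n + 1)) (F : SL(2, ℝ)),
  IsSeamFrame (c.ρ (gen Γ (c.W.A (i.val : ℤ)))) (c.ρ (gen Γ (c.W.U (i.val : ℤ)))) F →
  cj F (arcD (c.w.A i) c.z.1 x') = c.mu x' i.val (c.w.A i)

/-- WH3: derivative of the trace of a product -/
def WH3_stmt : Prop := ∀ (n : ℕ) (Q : Fin (n + 1) → ℝ → M2) (δ : Fin (n + 1) → M2)
  (Φ : ℕ → SL(2, ℝ)) (g : SL(2, ℝ)),
  (∀ i, HasD (Q i) ((1 / 2 : ℝ) • (δ i * Q i 0))) →
  (∀ i : Fin (n + 1), (Φ (i.val + 1)).1 = (Φ i.val).1 * Q i 0 ∨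
    (Φ (i.val + 1)).1 = -((Φ i.val).1 * Q i 0)) →
  PEq (Φ (n + 1)) (g * Φ 0) → 0 < ((List.ofFn (fun i => Q i 0)).prod).trace →
  HasDerivAt (fun s : ℝ => ((List.ofFn (fun i => Q i s)).prod).trace)
    ((1 / 2) * ∑ i : Fin (n + 1), (cj (Φ i.val) (δ i) * (pos g).1).trace) 0

/-- WH3b: the trace formula with the matrices of the arcs -/
def WH3b_stmt : Prop := ∀ (J : Type) (w : Word J) (z : PS J), z ∈ Cone J →
  ((List.ofFn (fun i : Fin (w.n + 1) =>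
    (Dm (w.t i z) * arcM (w.A i) z.1 : SL(2, ℝ)).1)).prod).trace = w.F z

/-- WH4: derivative of the length function of `l` -/
def WH4_stmt : Prop := ∀ (Γ : Subgroup SL(2, ℝ)) (J K : Type) [Fintype J] [DecidableEq J]
  (c : WCtx Γ J K) (z' : PS J),
  fderiv ℝ c.w.H c.z z' = ∑ i : Fin (c.w.n + 1),
    ((z'.2 (c.w.j i) + c.w.c i * z'.1 (c.w.j i)) * ip (c.a c.l) (c.a (c.W.A (i.val : ℤ))) +
      ip (c.a c.l) (c.mu z'.1 i.val (c.w.A i)))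

/-! ### V: velocities -/

/-- WV1: smoothness of the representation, the lengths and the axes -/
def WV1_stmt : Prop := ∀ (Γ : Subgroup SL(2, ℝ)), IsClosedSurfaceGroup Γ →
  ∀ (J K : Type) [Fintype K] [DecidableEq K] (X : Setup Γ J K)
    (f : Bd ≃ Bd) (r : SL(2, ℝ) → SL(2, ℝ)) (z₀ : ℍ) (A : (K → ℝ) → ℍ → SL(2, ℝ)),
    X.Def f r z₀ A → ∀ γ ∈ Γ,
    (∀ i j, ContDiff ℝ 2 (fun T : K → ℝ => (A T (γ • z₀) * r γ).1 i j)) ∧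
    ((∀ T, 2 < |trc (A T (γ • z₀) * r γ)|) →
      ContDiff ℝ 2 (fun T : K → ℝ => len (A T (γ • z₀) * r γ)) ∧
      ∀ i j, ContDiff ℝ 2 (fun T : K → ℝ => axis (A T (γ • z₀) * r γ) i j))

/-- WV2: derivative of the representation and of the lengths in the direction `k` -/
def WV2_stmt : Prop := ∀ (Γ : Subgroup SL(2, ℝ)), IsClosedSurfaceGroup Γ →
  ∀ (J K : Type) [Fintype K] [DecidableEq K] (X : Setup Γ J K)
    (f : Bd ≃ Bd) (r : SL(2, ℝ) → SL(2, ℝ)) (z₀ : ℍ) (A : (K → ℝ) → ℍ → SL(2, ℝ)),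
    X.Def f r z₀ A → ∀ (T : K → ℝ) (k : K),
    (∀ γ ∈ Γ, HasD (fun s : ℝ => (A (T + s • Pi.single k 1) (γ • z₀) * r γ).1)
      ((-(1 / 2) : ℝ) • (flux Γ X.S' X.D'.cls (fun γ => A T (γ • z₀) * r γ) k z₀ (γ • z₀) *
        (A T (γ • z₀) * r γ).1))) ∧
    (∀ γ ∈ Γ, (∀ T, 2 < |trc (A T (γ • z₀) * r γ)|) →
      HasDerivAt (fun s : ℝ => len (A (T + s • Pi.single k 1) (γ • z₀) * r γ))
        (-ip (flux Γ X.S' X.D'.cls (fun γ => A T (γ • z₀) * r γ) k z₀ (γ • z₀))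
          (axis (A T (γ • z₀) * r γ))) 0)

/-- WV3a: uniqueness and existence of the velocity of a moving orthonormal frame -/
def WV3a_stmt : Prop :=
  (∀ a s a' s' nu nu' : M2, a.trace = 0 → s.trace = 0 → a * a = 1 → s * s = 1 →
    a * s = -(s * a) → IsVel a s a' s' nu → IsVel a s a' s' nu' → nu = nu') ∧
  (∀ (a s : ℝ → M2) (a' s' : M2), (∀ u, (a u).trace = 0 ∧ (s u).trace = 0 ∧ a u * a u = 1 ∧
    s u * s u = 1 ∧ a u * s u = -(s u * a u)) → HasD a a' → HasD s s' →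
    ∃ nu, IsVel (a 0) (s 0) a' s' nu)

/-- WV3b: change of the velocity under a moving conjugation -/
def WV3b_stmt : Prop :=
  ∀ (a s : ℝ → M2) (a' s' nu v : M2) (g : ℝ → SL(2, ℝ)), HasD a a' → HasD s s' →
    IsVel (a 0) (s 0) a' s' nu → v.trace = 0 →
    HasD (fun u => (g u).1) ((1 / 2 : ℝ) • (v * (g 0).1)) →
    ∃ a₁ s₁ : M2, HasD (fun u => cj (g u) (a u)) a₁ ∧ HasD (fun u => cj (g u) (s u)) s₁ ∧
      IsVel (cj (g 0) (a 0)) (cj (g 0) (s 0)) a₁ s₁ (v + cj (g 0) nu)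

/-- WV3c: change of the velocity when the frame moves along its first vector (half length of the
leaf), along its second vector (seam), and to the other side of the leaf (twist) -/
def WV3c_stmt : Prop :=
  ∀ (a s : ℝ → M2) (a' s' nu : M2) (x : ℝ → ℝ) (x' : ℝ), (∀ u, (a u).trace = 0 ∧
    (s u).trace = 0 ∧ a u * a u = 1 ∧ s u * s u = 1 ∧ a u * s u = -(s u * a u)) →
    HasD a a' → HasD s s' → HasDerivAt x x' 0 → IsVel (a 0) (s 0) a' s' nu →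
    (∃ s₁ : M2, HasD (fun u => Real.cosh (x u / 2) • s u +
        Real.sinh (x u / 2) • (a u * s u)) s₁ ∧
      IsVel (a 0) (Real.cosh (x 0 / 2) • s 0 + Real.sinh (x 0 / 2) • (a 0 * s 0)) a' s₁
        (nu + (x' / 2) • a 0)) ∧
    (∃ a₁ : M2, HasD (fun u => -(Real.cosh (x u) • a u) + Real.sinh (x u) • (a u * s u)) a₁ ∧
      IsVel (-(Real.cosh (x 0) • a 0) + Real.sinh (x 0) • (a 0 * s 0)) (-s 0) a₁ (-s')
        (nu + x' • s 0)) ∧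
    (∃ s₁ : M2, HasD (fun u => -(Real.cosh (x u) • s u) + Real.sinh (x u) • (a u * s u)) s₁ ∧
      IsVel (-a 0) (-(Real.cosh (x 0) • s 0) + Real.sinh (x 0) • (a 0 * s 0)) (-a') s₁
        (nu - x' • a 0))

/-- WV4: the velocity structure of the twist deformation, and the derivatives of the
coordinates -/
def WV4_stmt : Prop := ∀ (Γ : Subgroup SL(2, ℝ)) (J K : Type) [Fintype J] [DecidableEq J]
  [Fintype K] [DecidableEq K] (c : WCtx Γ J K) (f : Bd ≃ Bd) (r : SL(2, ℝ) → SL(2, ℝ))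
  (A : (K → ℝ) → ℍ → SL(2, ℝ)) (Z : (K → ℝ) → PS J) (T : K → ℝ),
  c.X.Def f r c.z₀ A → (∀ T, c.X.S.AdmS (fun γ => A T (γ • c.z₀) * r γ)) →
  (∀ T, c.X.D.Coord (fun γ => A T (γ • c.z₀) * r γ) (Z T)) →
  c.ρ = (fun γ => A T (γ • c.z₀) * r γ) →
  ∃ V : c.Vel, ∀ j,
    HasDerivAt (fun s : ℝ => (Z (T + s • Pi.single c.k 1)).1 j) (V.xd (c.X.D.P j)) 0 ∧
    HasDerivAt (fun s : ℝ => (Z (T + s • Pi.single c.k 1)).2 j)
      (ip (V.nu (c.X.D.P j) (c.X.D.U j) - V.nu (sw (c.X.D.P j)) (c.X.D.V j))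
        (c.a (c.X.D.P j))) 0

/-- WV5: the coordinates are continuously differentiable -/
def WV5_stmt : Prop := ∀ (Γ : Subgroup SL(2, ℝ)), IsClosedSurfaceGroup Γ →
  ∀ (J K : Type) [Fintype J] [DecidableEq J] [Fintype K] [DecidableEq K] (X : Setup Γ J K)
    (f : Bd ≃ Bd) (r : SL(2, ℝ) → SL(2, ℝ)) (z₀ : ℍ) (A : (K → ℝ) → ℍ → SL(2, ℝ)),
    X.Def f r z₀ A → ∀ Z : (K → ℝ) → PS J,
      (∀ T, X.S.AdmS (fun γ => A T (γ • z₀) * r γ)) →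
      (∀ T, X.D.Coord (fun γ => A T (γ • z₀) * r γ) (Z T)) → ContDiff ℝ 1 Z

/-- WV6: the twist coordinate as an explicit function of the unit vectors -/
def WV6_stmt : Prop := ∀ (Γ : Subgroup SL(2, ℝ)), IsClosedSurfaceGroup Γ →
  ∀ S : LeafSystem Γ, ∀ (J : Type) (D : RefData S J) (r : SL(2, ℝ) → SL(2, ℝ)) (z : PS J),
    S.AdmS r → D.Coord r z → ∀ j,
    z.2 j = twC (sV Γ r (D.P j) (D.U j)) (aV Γ r (sw (D.P j))) (sV Γ r (sw (D.P j)) (D.V j)) ∧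
    sV Γ r (D.P j) (D.U j) = -(Real.cosh (z.2 j) • sV Γ r (sw (D.P j)) (D.V j)) +
      Real.sinh (z.2 j) • (aV Γ r (sw (D.P j)) * sV Γ r (sw (D.P j)) (D.V j))

end

end AdSBend
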