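import Pool.Agent.helper73.AD.Card
import Pool.Agent.helper11.AD.DT
import Pool.Agent.helper11.AD.IV
import Pool.Agent.helper11.AD.QB
import Pool.Agent.helper13.AD.GS
import Pool.Agent.helper14.AD.CL
import Pool.Agent.helper14.AD.DR
import Pool.Agent.helper14.AD.IS
import Pool.Agent.helper14.AD.ND
import Pool.Agent.helper14.AD.NS
import Pool.Agent.helper15.AD.BD
import Pool.Agent.helper15.AD.BF
import Pool.Agent.helper17.AD.BX
import Pool.Agent.helper17.AD.SB
import Pool.Agent.helper2.AD.OP
import Pool.Agent.helper21.AD.KB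
import Pool.Agent.helper21.AD.KY
import Pool.Agent.helper26.AD.MAIN
import Pool.Agent.helper31.AD.CV
import Pool.Agent.helper43.AD.IE
import Pool.Agent.helper46.AD.KD
import Pool.Agent.helper55.AD.TB
import Pool.Agent.helper55.AD.YB
import Pool.Agent.helper55.AD.YP
import Pool.Agent.helper77.AD.EL
import Pool.Agent.helper77.AD.KA
import Pool.Agent.helper78.AD.KC
import Pool.Agent.helper78.AD.PR
import Pool.Agent.helper78.AD.TP
import Pool.Agent.helper81.AD.EU
import Pool.Agent.helper81.AD.TD
import Pool.Agent.helper82.AD.FI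
import Pool.Agent.helper82.AD.SL
import Pool.Agent.helper91.AD.HB
import Pool.Agent.helper91.AD.XA
import Pool.Agent.helper92.AD.NZ
import Pool.Agent.helper92.AD.PD
import Pool.Agent.helper92.AD.SA
import Pool.Agent.helper92.AD.SC
import Pool.Agent.helper93.AD.DX
import Pool.Agent.helper99.AD.LG

/-!
Wiring of the analytic core (project ad).
-/

namespace Pool.Agent.helper73.AD

theorem MAIN : MAIN_stmt := by
  have bf : BF_stmt := BF_of DT
  have qb : QB_stmt := QB_of bf
  have eu : EU_stmt := EU_of bf
  have el : EL_stmt := EL_of bf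
  have bx : BX_stmt := BX_of bf eu
  have xa : XA_stmt := XA_of GS DT BD bf qb eu
  have hb : HB_stmt := HB_of GS DT BD bf qb
  have sl : SL_stmt := SL_of GS DT CV BD bf qb
  have td : TD_stmt := TD_of DT TP
  have kd : KD_stmt := KD_of GS CV KB KC td bf
  have sa : SA_stmt := SA_of kd IV GS bf
  have sb : SB_stmt := SB_of bf eu el bx xa hb sl
  have ie : IE_stmt := IE_of IS
  have nz : NZ_stmt := NZ_of DR ie
  have ka : KA_stmt := KA_of DR
  have ky : KY_stmt := KY_of DR ka
  have nd : ND_stmt := ND_of ie ky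
  have op : OP_stmt := OP_of IS ie DX LG PD nz DR
  have cl : CL_stmt := CL_of nd
  have ns : NS_stmt := NS_of nd op cl
  have yb : YB_stmt := YB_of nd ns TB
  have yp : YP_stmt := YP_of ns yb
  have pr : PR_stmt := PR_of IS DR
  have fi : FI_stmt := FI_of ie LG SC yb yp pr
  exact MAIN_of sa sb fi

end Pool.Agent.helper73.AD
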